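import Pool.Agent.Lib.MP_c167ed_an.AbsSigned

/-!
# MP_c167ed_an: conclusion from an integrable bound for the radial velocity away from the axis
-/

open MeasureTheory Set Filter Topology
open scoped ContDiff ENNReal NNReal

namespace Pool.Agent.Lib.MP_c167ed_anC

open Pool.Agent.Lib.MP_c167ed_an

variable {m : ℕ} {T : ℝ} {a w : ℝ → ℝ → ℝ → ℝ} {K W A0 C1 : ℝ}

/-- growth of a trajectory whose speed is bounded by an integrable function outside of `c0` -/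
theorem grow_int {ρ a' φ : ℝ → ℝ} {t c0 : ℝ} (ht : 0 ≤ t) (hc : ContinuousOn ρ (Icc 0 t))
    (hd : ∀ s ∈ Ioo 0 t, HasDerivAt ρ (a' s) s) (hφ0 : ∀ s, 0 ≤ φ s)
    (hφ : IntegrableOn φ (Icc 0 t)) (hb : ∀ s ∈ Ioo 0 t, c0 ≤ ρ s → a' s ≤ φ s) :
    ρ t ≤ max (ρ 0) c0 + ∫ s in (0 : ℝ)..t, φ s := by
  set c1 : ℝ := max (ρ 0) c0 with hc1
  set S : Set ℝ := {s | s ∈ Icc 0 t ∧ ρ s ≤ c1} with hS
  have h0S : (0 : ℝ) ∈ S := ⟨⟨le_rfl, ht⟩, le_max_left _ _⟩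
  have hSc : IsClosed S := by
    have : S = Icc 0 t ∩ ρ ⁻¹' Iic c1 := by
      ext s
      rfl
    rw [this]
    exact hc.preimage_isClosed_of_isClosed isClosed_Icc isClosed_Iic
  have hbdd : BddAbove S := ⟨t, fun s hs => hs.1.2⟩
  set σ : ℝ := sSup S with hσ
  have hσS : σ ∈ S := hSc.csSup_mem ⟨0, h0S⟩ hbdd
  have hnn : 0 ≤ ∫ s in (0 : ℝ)..σ, φ s := intervalIntegral.integral_nonneg hσS.1.1 fun s _ => hφ0 s
  have hi : ∀ {x y : ℝ}, x ∈ Icc 0 t → y ∈ Icc 0 t → IntervalIntegrable φ volume x y := by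
    intro x y hx hy
    rw [intervalIntegrable_iff']
    refine hφ.mono_set ?_
    intro s hs
    rcases le_total x y with hxy | hxy
    · rw [uIcc_of_le hxy] at hs
      exact ⟨hx.1.trans hs.1, hs.2.trans hy.2⟩
    · rw [uIcc_of_ge hxy] at hs
      exact ⟨hy.1.trans hs.1, hs.2.trans hx.2⟩
  have hadd : (∫ s in (0 : ℝ)..σ, φ s) + ∫ s in σ..t, φ s = ∫ s in (0 : ℝ)..t, φ s :=
    intervalIntegral.integral_add_adjacent_intervals (hi ⟨le_rfl, ht⟩ hσS.1)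
      (hi hσS.1 ⟨ht, le_rfl⟩)
  have key : ρ t - ρ σ ≤ ∫ s in σ..t, φ s := by
    refine intervalIntegral.sub_le_integral_of_hasDeriv_right_of_le (g' := a') hσS.1.2
      (hc.mono (Icc_subset_Icc hσS.1.1 le_rfl)) (fun s hs => ?_)
      (hφ.mono_set (Icc_subset_Icc hσS.1.1 le_rfl)) (fun s hs => ?_)
    · exact (hd s ⟨hσS.1.1.trans_lt hs.1, hs.2⟩).hasDerivWithinAt
    · have hs0 : 0 < s := hσS.1.1.trans_lt hs.1
      refine hb s ⟨hs0, hs.2⟩ ?_
      by_contra hcon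
      push Not at hcon
      have h1 : s ∈ S := ⟨⟨hs0.le, hs.2.le⟩, hcon.le.trans (le_max_right _ _)⟩
      exact absurd (le_csSup hbdd h1) (not_le.2 hs.1)
  have h2 := hσS.2
  linarith

/-- as `abs_signed`, with an integrable bound -/
theorem abs_int (hm : 3 ≤ m) (D : AbsData m T a w K W A0 C1) {b : ℝ → ℝ} (hb0 : ∀ s, 0 ≤ b s)
    (hb : IntegrableOn b (Ioo 0 T))
    (far : ∀ ε, 0 < ε → ∀ N, 0 ≤ N → ∃ C, 0 ≤ C ∧ ∀ t ∈ Ioo 0 T,
      (∀ r', ε ≤ r' → ∀ z', |w t r' z'| ≤ N * r' ^ (m - 1)) → ∀ r, 2 * ε ≤ r → ∀ z,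
        a t r z ≤ C * (1 + b t)) :
    ∃ C, ∀ t ∈ Ico 0 T, ∀ r, 0 < r → ∀ z, |w t r z| ≤ C := by
  obtain ⟨ε, η, μ, hε, hε1, hη, hμ, hnear, htr⟩ := abs_near hm D
  have hW : 0 ≤ W := D.hW
  have hT : 0 < T := D.hT
  set η0 := min η ε with hη0def
  have hη0 : 0 < η0 := lt_min hη hε
  set N := W / η0 ^ (m - 1) with hN
  have hN0 : 0 ≤ N := by positivity
  -- bound for `w` away from the axis
  have hw1 : ∀ t ∈ Ico 0 T, ∀ r', ε ≤ r' → ∀ z', |w t r' z'| ≤ N * r' ^ (m - 1) := by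
    intro t ht r' hr' z'
    have hr0 : 0 < r' := hε.trans_le hr'
    rcases eq_or_lt_of_le ht.1 with h0 | h0
    · rw [← h0]
      refine (D.initW r' hr0 z').trans ?_
      have h1 : η0 ^ (m - 1) ≤ r' ^ (m - 1) := by
        have : η0 ≤ r' := (min_le_right _ _).trans hr'
        gcongr
      rw [hN, div_mul_eq_mul_div, le_div_iff₀ (by positivity)]
      gcongr
    · obtain ⟨ρ, ζ, hρc, hρpos, hρd, hρt, hρw⟩ := D.traj t ⟨h0, ht.2⟩ r' hr0 z'
      have hρ0 : 0 < ρ 0 := hρpos 0 ⟨le_rfl, h0.le⟩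
      have hη1 : η ≤ ρ 0 := htr t ⟨h0, ht.2⟩ ρ ζ hρc hρpos hρd (by rw [hρt]; exact hr')
      have hη2 : η0 ≤ ρ 0 := (min_le_left _ _).trans hη1
      have hweq : w t r' z' = w 0 (ρ 0) (ζ 0) / (ρ 0) ^ (m - 1) * r' ^ (m - 1) := by
        rw [← hρw]; field_simp
      rw [hweq, abs_mul, abs_div, abs_of_pos (pow_pos hρ0 _), abs_of_pos (pow_pos hr0 _)]
      have h2 := D.initW _ hρ0 (ζ 0)
      rw [hN]
      gcongr
  obtain ⟨C, hC0, hC⟩ := far ε hε N hN0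
  have haC : ∀ t ∈ Ioo 0 T, ∀ r, 2 * ε ≤ r → ∀ z, a t r z ≤ C * (1 + b t) := fun t ht =>
    hC t ht (hw1 t ⟨ht.1.le, ht.2⟩)
  set B : ℝ := ∫ s in Ioo 0 T, b s with hB
  have hB0 : 0 ≤ B := setIntegral_nonneg measurableSet_Ioo fun s _ => hb0 s
  set G : ℝ := C * (T + B) with hG
  have hG0 : 0 ≤ G := by positivity
  set L := 1 + (2 * ε + G) / η with hL
  have hL0 : 0 ≤ L := by positivity
  refine ⟨W + μ * (2 * ε) + W * L ^ (m - 1), fun t ht r hr z => ?_⟩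
  have hP1 : 0 ≤ μ * (2 * ε) := by positivity
  have hP2 : 0 ≤ W * L ^ (m - 1) := by positivity
  rcases lt_or_ge r (2 * ε) with hrε | hrε
  · have h1 := hnear t ht r ⟨hr, hrε.le⟩ z
    have h2 : μ * r ≤ μ * (2 * ε) := by gcongr
    linarith
  rcases eq_or_lt_of_le ht.1 with h0 | h0
  · rw [← h0]
    have := D.initW r hr z
    linarith
  · obtain ⟨ρ, ζ, hρc, hρpos, hρd, hρt, hρw⟩ := D.traj t ⟨h0, ht.2⟩ r hr z
    have hρ0 : 0 < ρ 0 := hρpos 0 ⟨le_rfl, h0.le⟩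
    have hη1 : η ≤ ρ 0 := htr t ⟨h0, ht.2⟩ ρ ζ hρc hρpos hρd (by rw [hρt]; linarith)
    have hφi0 : IntegrableOn (fun s => C * (1 + b s)) (Ioo 0 T) :=
      ((integrableOn_const (by simp)).add hb).const_mul C
    have hsub : Ioc 0 t ⊆ Ioo 0 T := fun s hs => ⟨hs.1, hs.2.trans_lt ht.2⟩
    have hφi : IntegrableOn (fun s => C * (1 + b s)) (Icc 0 t) := by
      rw [integrableOn_Icc_iff_integrableOn_Ioc]
      exact hφi0.mono_set hsub
    have hφ0 : ∀ s, 0 ≤ C * (1 + b s) := fun s => mul_nonneg hC0 (by have := hb0 s; linarith)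
    have hgrow := grow_int (ρ := ρ) (φ := fun s => C * (1 + b s)) (c0 := 2 * ε)
      (a' := fun s => a s (ρ s) (ζ s)) h0.le hρc hρd hφ0 hφi
      (fun s hs hXs => haC s ⟨hs.1, hs.2.trans ht.2⟩ _ hXs _)
    have hint : ∫ s in (0 : ℝ)..t, C * (1 + b s) ≤ G := by
      rw [intervalIntegral.integral_of_le h0.le]
      calc ∫ s in Ioc 0 t, C * (1 + b s) ≤ ∫ s in Ioo 0 T, C * (1 + b s) :=
            setIntegral_mono_set hφi0 (ae_of_all _ hφ0) hsub.eventuallyLE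
        _ = C * ∫ s in Ioo 0 T, (1 + b s) := integral_const_mul _ _
        _ = G := by
            have hi0 : IntegrableOn (fun _ : ℝ => (1 : ℝ)) (Ioo 0 T) := integrableOn_const (by simp)
            have h1 : ∫ s in Ioo 0 T, (1 + b s) = (∫ s in Ioo 0 T, (1 : ℝ)) + ∫ s in Ioo 0 T, b s :=
              integral_add hi0 hb
            rw [h1, setIntegral_const, hG, hB]
            simp [hT.le]
    rw [hρt] at hgrow
    have hr1 : r ≤ ρ 0 + (2 * ε + G) := by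
      have h1 : max (ρ 0) (2 * ε) ≤ ρ 0 + 2 * ε := max_le (by linarith) (by linarith)
      linarith
    have hratio : r / ρ 0 ≤ L := by
      rw [div_le_iff₀ hρ0, hL]
      have h3 : (2 * ε + G) / η * ρ 0 ≥ 2 * ε + G := by
        rw [ge_iff_le, div_mul_eq_mul_div, le_div_iff₀ hη]
        have : 0 ≤ 2 * ε + G := by positivity
        gcongr
      nlinarith
    have hweq : w t r z = w 0 (ρ 0) (ζ 0) * (r / ρ 0) ^ (m - 1) := by
      have hr' : r ^ (m - 1) ≠ 0 := by positivity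
      rw [div_eq_iff hr'] at hρw
      rw [hρw, div_pow]
      ring
    rw [hweq, abs_mul, abs_of_nonneg (by positivity : 0 ≤ (r / ρ 0) ^ (m - 1))]
    have h4 : |w 0 (ρ 0) (ζ 0)| * (r / ρ 0) ^ (m - 1) ≤ W * L ^ (m - 1) := by
      have := D.initW _ hρ0 (ζ 0)
      gcongr
    linarith

end Pool.Agent.Lib.MP_c167ed_anC
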