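import Pool.Agent.Lib.MP_c167ed_an.Statement

/-! Decay of the vorticity along the axis; finite impulse. -/

open MeasureTheory Set Filter Topology
open scoped ContDiff ENNReal NNReal

namespace Pool.Agent.Lib.MP_c167ed_anC

open Pool.Agent.Lib.MP_c167ed_an

/-- `|∇ × v| ≤ K |x'| / (1 + |x_d|)` for `|x'| ≤ 1`: the vorticity decays along the axis (for a smooth
axisymmetric field without swirl, `|∇ × v| ≤ K |x'|` always holds near a bounded part of the axis). -/
def AxisDecay {m : ℕ} (v : V m → V m) : Prop :=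
  ∃ K : ℝ, ∀ x, rad x ≤ 1 → curl v x ≤ K * rad x / (1 + |ax x|)

/-- `∫ |x'| |∇ × v| dx < ∞` -/
def FinImpulse {m : ℕ} (v : V m → V m) : Prop :=
  ∫⁻ x, ENNReal.ofReal (rad x * curl v x) < ⊤

end Pool.Agent.Lib.MP_c167ed_anC
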