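import Pool.Agent.Lib.MP_c167ed_an.QInit
import Pool.Agent.Lib.MP_c167ed_an.Main
import Pool.Agent.Lib.MP_c167ed_anC.StatementC

/-!
# MP_c167ed_an: data whose vorticity decays along the axis
-/

open MeasureTheory Set Filter Topology
open scoped ContDiff ENNReal NNReal

namespace Pool.Agent.Lib.MP_c167ed_anC

open Pool.Agent.Lib.MP_c167ed_an

theorem pexp_lt {m : ℕ} (hm : 3 ≤ m) :
    ((m - 2 : ℕ) : ℝ) * pexp m < ((m - 1 : ℕ) : ℝ) + 1 := by
  have h1 := qinita_exponent hm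
  rw [Nat.cast_sub (by omega), Nat.cast_sub (by omega)]
  push_cast
  linarith

theorem Q_init_axis {m : ℕ} (hm : 3 ≤ m) {v : V m → V m} (hv : ContDiff ℝ ∞ v)
    (hH1 : ∫⁻ x, ‖iteratedFDeriv ℝ 1 v x‖ₑ ^ 2 < ⊤) {S : ℝ} (hS : ∀ x, curl v x ≤ S)
    (hd : AxisDecay v) :
    ∫⁻ x : V m, ENNReal.ofReal (F m (curl v x / rad x ^ (m - 1))) < ⊤ := by
  obtain ⟨K0, hK0⟩ := hd
  obtain ⟨c, -, hc⟩ := lintegral_axisym (m := m) (by omega)
  obtain ⟨C, hC0, hC⟩ := F_upper hm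
  obtain ⟨C2, hC20, hC2⟩ := F_sq hm S
  set A : ℝ → ℝ := fun z => |K0| / (1 + |z|) with hA
  have hAm : Measurable A := by
    have : Continuous A := by
      refine continuous_const.div (by fun_prop) fun z => ?_
      positivity
    exact this.measurable
  have hA0 : ∀ z, 0 ≤ A z := fun z => by positivity
  set f : ℝ → ℝ → ℝ≥0∞ := fun r z =>
    if r ^ (m - 2) < A z then ENNReal.ofReal ((A z / r ^ (m - 2)) ^ pexp m) else 0 with hf
  have hfm : Measurable (Function.uncurry f) := by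
    have h1 : Measurable (fun q : ℝ × ℝ => q.1 ^ (m - 2)) := measurable_fst.pow_const _
    have h2 : Measurable (fun q : ℝ × ℝ => A q.2) := hAm.comp measurable_snd
    exact Measurable.ite (measurableSet_lt h1 h2)
      (((h2.div h1).pow_const _).ennreal_ofReal) measurable_const
  have hfm' : Measurable fun x : V m => f (rad x) (ax x) :=
    hfm.comp (continuous_rad.measurable.prodMk continuous_ax.measurable)
  have hpt : ∀ᵐ x : V m, ENNReal.ofReal (F m (curl v x / rad x ^ (m - 1))) ≤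
      ENNReal.ofReal C * f (rad x) (ax x) +
        ENNReal.ofReal (C2 * (2 * (m + 1)) ^ 2) * ‖iteratedFDeriv ℝ 1 v x‖ₑ ^ 2 := by
    filter_upwards [ae_rad_pos (m := m) (by omega)] with x hx
    have hcurl0 : 0 ≤ curl v x := Real.sqrt_nonneg _
    set s := curl v x / rad x ^ (m - 1) with hs
    have hs0 : 0 ≤ s := by positivity
    rcases le_or_gt (rad x) 1 with hx1 | hx1
    · refine le_trans ?_ le_self_add
      have hcurl := hK0 x hx1
      have hcurl' : curl v x ≤ A (ax x) * rad x := by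
        refine hcurl.trans ?_
        simp only [hA]
        rw [div_mul_eq_mul_div]
        have := le_abs_self K0
        gcongr
      have hsle : s ≤ A (ax x) / rad x ^ (m - 2) := by
        rw [hs, div_le_div_iff₀ (by positivity) (by positivity)]
        have e1 : rad x ^ (m - 1) = rad x * rad x ^ (m - 2) := by
          rw [← pow_succ']; congr 1; omega
        rw [e1]
        calc curl v x * rad x ^ (m - 2) ≤ (A (ax x) * rad x) * rad x ^ (m - 2) := by
              gcongr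
          _ = A (ax x) * (rad x * rad x ^ (m - 2)) := by ring
      by_cases h : rad x ^ (m - 2) < A (ax x)
      · simp only [hf, if_pos h]
        rw [← ENNReal.ofReal_mul hC0.le]
        apply ENNReal.ofReal_le_ofReal
        refine (hC s).trans ?_
        rw [abs_of_nonneg hs0]
        have := (qinita_pexp_pos hm).le
        gcongr
      · simp only [hf, if_neg h, mul_zero]
        have h1 : s ≤ 1 := by
          refine hsle.trans ?_
          rw [div_le_one (by positivity)]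
          exact not_lt.1 h
        rw [F_zero m (by rwa [abs_of_nonneg hs0]), ENNReal.ofReal_zero]
    · refine le_trans ?_ le_add_self
      have h1 : 1 ≤ rad x ^ (m - 1) := one_le_pow₀ hx1.le
      have h2 : s ≤ curl v x := by
        rw [hs]
        exact div_le_self hcurl0 h1
      have h3 : curl v x ≤ 2 * (m + 1) * ‖iteratedFDeriv ℝ 1 v x‖ := curl_le v x
      have h4 : F m s ≤ C2 * s ^ 2 := hC2 s (by rw [abs_of_nonneg hs0]; exact h2.trans (hS x))
      have h5 : ‖iteratedFDeriv ℝ 1 v x‖ₑ ^ 2 = ENNReal.ofReal (‖iteratedFDeriv ℝ 1 v x‖ ^ 2) := by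
        rw [ENNReal.ofReal_pow (norm_nonneg _), ofReal_norm]
      rw [h5, ← ENNReal.ofReal_mul (by positivity)]
      apply ENNReal.ofReal_le_ofReal
      refine h4.trans ?_
      have h6 : s ^ 2 ≤ (2 * (m + 1) * ‖iteratedFDeriv ℝ 1 v x‖) ^ 2 :=
        pow_le_pow_left₀ hs0 (h2.trans h3) 2
      calc C2 * s ^ 2 ≤ C2 * (2 * (m + 1) * ‖iteratedFDeriv ℝ 1 v x‖) ^ 2 := by gcongr
        _ = _ := by ring
  have hp := pexp_lt hm
  have hE0 : 0 < ((m - 1 : ℕ) : ℝ) + 1 - ((m - 2 : ℕ) : ℝ) * pexp m := by linarith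
  set E := ((m - 1 : ℕ) : ℝ) + 1 - ((m - 2 : ℕ) : ℝ) * pexp m with hE
  set σ : ℝ := (((m - 1 : ℕ) : ℝ) + 1) / ((m - 2 : ℕ) : ℝ) with hσ
  have hσ1 : 1 < σ := by
    have h1 : (0 : ℝ) < ((m - 2 : ℕ) : ℝ) := by exact_mod_cast (by omega : 0 < m - 2)
    rw [hσ, one_lt_div h1]
    have h2 : ((m - 2 : ℕ) : ℝ) ≤ ((m - 1 : ℕ) : ℝ) := by exact_mod_cast (by omega : m - 2 ≤ m - 1)
    linarith
  have hinner : ∀ z, ∫⁻ r in Ioi (0 : ℝ), f r z * ENNReal.ofReal (r ^ (m - 1)) ≤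
      ENNReal.ofReal (|K0| ^ σ / E * (1 + ‖z‖) ^ (-σ)) := by
    intro z
    refine (qinit_inner (κ := m - 2) (μ := m - 1) (by omega) hp (hA0 z)).trans ?_
    apply ENNReal.ofReal_le_ofReal
    rw [← hE, ← hσ]
    simp only [hA]
    rw [Real.div_rpow (abs_nonneg _) (by positivity), Real.rpow_neg (by positivity),
      Real.norm_eq_abs]
    apply le_of_eq
    field_simp
  have hfin : ∫⁻ z : ℝ, ENNReal.ofReal (|K0| ^ σ / E * (1 + ‖z‖) ^ (-σ)) < ⊤ := by
    have h1 : Integrable fun z : ℝ => (1 + ‖z‖) ^ (-σ) :=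
      integrable_one_add_norm (by simpa using hσ1)
    exact (h1.const_mul (|K0| ^ σ / E)).lintegral_lt_top
  calc ∫⁻ x : V m, ENNReal.ofReal (F m (curl v x / rad x ^ (m - 1)))
      ≤ ∫⁻ x : V m, (ENNReal.ofReal C * f (rad x) (ax x) +
        ENNReal.ofReal (C2 * (2 * (m + 1)) ^ 2) * ‖iteratedFDeriv ℝ 1 v x‖ₑ ^ 2) :=
        lintegral_mono_ae hpt
    _ = ENNReal.ofReal C * (∫⁻ x : V m, f (rad x) (ax x)) +
        ENNReal.ofReal (C2 * (2 * (m + 1)) ^ 2) * ∫⁻ x : V m, ‖iteratedFDeriv ℝ 1 v x‖ₑ ^ 2 := by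
        rw [lintegral_add_left (hfm'.const_mul _), lintegral_const_mul' _ _ ENNReal.ofReal_ne_top,
          lintegral_const_mul' _ _ ENNReal.ofReal_ne_top]
    _ = ENNReal.ofReal C * (c * ∫⁻ z, ∫⁻ r in Ioi (0 : ℝ), f r z * ENNReal.ofReal (r ^ (m - 1))) +
        ENNReal.ofReal (C2 * (2 * (m + 1)) ^ 2) * ∫⁻ x : V m, ‖iteratedFDeriv ℝ 1 v x‖ₑ ^ 2 := by
        rw [hc f hfm]
    _ ≤ ENNReal.ofReal C * (c * ∫⁻ z : ℝ, ENNReal.ofReal (|K0| ^ σ / E * (1 + ‖z‖) ^ (-σ))) +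
        ENNReal.ofReal (C2 * (2 * (m + 1)) ^ 2) * ∫⁻ x : V m, ‖iteratedFDeriv ℝ 1 v x‖ₑ ^ 2 := by
        gcongr with z
        exact hinner z
    _ < ⊤ := by
        refine ENNReal.add_lt_top.2 ⟨?_, ENNReal.mul_lt_top ENNReal.ofReal_lt_top hH1⟩
        exact ENNReal.mul_lt_top ENNReal.ofReal_lt_top (ENNReal.mul_lt_top ENNReal.coe_lt_top hfin)

/-- the form used for solutions -/
theorem Q_init_decay {m : ℕ} {T : ℝ} {u : ℝ → V m → V m} {p : ℝ → V m → ℝ} (hm : 3 ≤ m)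
    (hT : 0 < T) (h : EulerSolution m T u p) (hd : AxisDecay (u 0)) :
    ∫⁻ x : V m, ENNReal.ofReal (F m (curl (u 0) x / rad x ^ (m - 1))) < ⊤ := by
  obtain ⟨C, hC0, hC⟩ := h.bounds 1 hT
  obtain ⟨C1, hC1⟩ := h.sobolev 1 0 hT
  refine Q_init_axis hm (h.contDiff ⟨le_rfl, hT⟩)
    ((hC1 0 (by simp)).trans_lt ENNReal.coe_lt_top) (S := 2 * (m + 1) * C) (fun x => ?_) hd
  refine (curl_le _ _).trans ?_
  gcongr
  exact hC 0 (by simp) _

end Pool.Agent.Lib.MP_c167ed_anC
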