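import Pool.Agent.Lib.MP_c167ed_an.SignedFar

/-!
# MP_c167ed_an: velocity estimate by the energy and the `L¹` norm of the vorticity
-/

open MeasureTheory Set Filter Topology
open scoped ContDiff ENNReal NNReal Pointwise

namespace Pool.Agent.Lib.MP_c167ed_anC

open Pool.Agent.Lib.MP_c167ed_an

/-- second bound for the inner integral, `L¹` version -/
theorem SF_bound3 {m : ℕ} (hm : 1 ≤ m) {C1 : ℝ} (hC1 : 0 < C1)
    (hcap : ∀ f : ℝ → ℝ → ℝ≥0∞,
    Measurable (Function.uncurry f) → ∀ (x : V m) (δ : ℝ), 0 < δ → δ ≤ rad x / 2 →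
      ∫⁻ y in Metric.closedBall x δ, f (rad y) (ax y) ≤
        ENNReal.ofReal (C1 * (δ / rad x) ^ (m - 1)) * ∫⁻ y : V m, f (rad y) (ax y))
    {v : V m → V m} (hv : ContDiff ℝ ∞ v) (ha : AxisymNoSwirl v) {M : ℝ} (hM0 : 0 ≤ M)
    (hM : ∫⁻ x : V m, ENNReal.ofReal (curl v x) ≤ ENNReal.ofReal M) {x : V m} {s : ℝ}
    (hs0 : 0 < s) (hs : s ≤ rad x / 2) :
    ‖∫ y : V m, bump y • Om v (x + s • y) y‖ ≤ 2 * C1 * (M / rad x ^ (m - 1)) / s ^ 2 := by
  have hR : 0 < rad x := by linarith
  have hc := SF_continuous_curl hv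
  refine (SF_inner hv x s).trans ?_
  rw [integral_const_mul, SF_rescale (curl v) x hs0]
  set f : ℝ → ℝ → ℝ≥0∞ := fun r z =>
    if rad x / 2 ≤ r then ENNReal.ofReal |om v r z| else 0 with hf
  have hfm : Measurable (Function.uncurry f) := by
    have h1 : Continuous (fun q : ℝ × ℝ => om v q.1 q.2) := continuous_om hv
    have h2 : Measurable (fun q : ℝ × ℝ => ENNReal.ofReal |om v q.1 q.2|) :=
      (ENNReal.continuous_ofReal.comp h1.abs).measurable
    exact Measurable.ite (measurableSet_le measurable_const measurable_fst) h2 measurable_const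
  have h1 := hcap f hfm x s hs0 hs
  have hint : IntegrableOn (curl v) (Metric.closedBall x s) :=
    (hc.continuousOn).integrableOn_compact (isCompact_closedBall x s)
  have hnn : 0 ≤ C1 * (s / rad x) ^ (m - 1) := by positivity
  have h2 : ENNReal.ofReal (∫ y in Metric.closedBall x s, curl v y) ≤
      ENNReal.ofReal (C1 * (s / rad x) ^ (m - 1) * M) := by
    rw [ofReal_integral_eq_lintegral_ofReal hint (Eventually.of_forall fun y => curl_nonneg v y),
      ENNReal.ofReal_mul hnn]
    calc ∫⁻ y in Metric.closedBall x s, ENNReal.ofReal (curl v y)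
        = ∫⁻ y in Metric.closedBall x s, f (rad y) (ax y) := by
          refine setLIntegral_congr_fun measurableSet_closedBall ?_
          intro y hy
          have hy' : ‖x - y‖ ≤ s := by
            rw [Metric.mem_closedBall, dist_comm, dist_eq_norm] at hy
            exact hy
          have h3 := (abs_le.1 (rad_sub_le x y)).2
          have h4 : rad x / 2 ≤ rad y := by linarith
          have h5 : 0 < rad y := by linarith
          simp only [hf]
          rw [if_pos h4, curl_eq_abs_om hm hv ha h5]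
      _ ≤ ENNReal.ofReal (C1 * (s / rad x) ^ (m - 1)) * ∫⁻ y : V m, f (rad y) (ax y) := h1
      _ ≤ ENNReal.ofReal (C1 * (s / rad x) ^ (m - 1)) * ENNReal.ofReal M := by
          refine mul_le_mul_right ?_ _
          refine le_trans (lintegral_mono fun y => ?_) hM
          simp only [hf]
          split_ifs with h6
          · have h5 : 0 < rad y := by linarith
            rw [← curl_eq_abs_om hm hv ha h5]
          · exact zero_le
  have h3 := (ENNReal.ofReal_le_ofReal_iff (by positivity)).1 h2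
  calc 2 * ((s ^ (m + 1))⁻¹ * ∫ y in Metric.closedBall x s, curl v y)
      ≤ 2 * ((s ^ (m + 1))⁻¹ * (C1 * (s / rad x) ^ (m - 1) * M)) := by
        gcongr
    _ = 2 * C1 * (M / rad x ^ (m - 1)) / s ^ 2 := by
        obtain ⟨n, rfl⟩ : ∃ n, m = n + 1 := ⟨m - 1, by omega⟩
        rw [Nat.add_sub_cancel, div_pow]
        field_simp
        ring

/-- as `signed_far`, with the `L¹` norm of the vorticity -/
theorem far_L1 {m : ℕ} (hm : 1 ≤ m) : ∃ C : ℝ, 0 < C ∧ ∀ v : V m → V m, ContDiff ℝ ∞ v →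
    (∀ x, dvg v x = 0) → AxisymNoSwirl v → ∀ E M N : ℝ, 0 ≤ E → 0 ≤ M → 0 ≤ N →
    (∫⁻ x, ‖v x‖ₑ ^ 2 ≤ ENNReal.ofReal (E ^ 2)) →
    (∫⁻ x : V m, ENNReal.ofReal (curl v x) ≤ ENNReal.ofReal M) →
    ∀ x : V m, 0 < rad x → (∀ y, rad x / 2 ≤ rad y → curl v y ≤ N * rad y ^ (m - 1)) →
    ‖v x‖ ≤ C * (E / √(rad x ^ (m + 1)) + √(N * M)) := by
  obtain ⟨C1, hC1, hcap⟩ := lintegral_ball_le (m := m) hm
  set b : ℝ := (volume : Measure (V m)).real (Metric.closedBall (0 : V m) 1) with hb
  have hb0 : 0 ≤ b := measureReal_nonneg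
  have hc := c0_pos m
  set K : ℝ := √(2 * b * 2 ^ (m - 1) * (2 * C1)) with hK
  have hK0 : 0 ≤ K := Real.sqrt_nonneg _
  have hpi := Real.pi_pos
  refine ⟨(b + C1 + Real.pi * K) / c0 m, by positivity, ?_⟩
  intro v hv hdiv ha E P N hE0 hP0 hN0 hE hP x hR hcurl
  have hvc : Continuous v := hv.continuous
  have hδ : 0 < rad x / 2 := by linarith
  have havg := avg_formula hv hdiv x hδ
  have hfirst := SF_first hm hC1 hcap hvc ha hE0 hE hδ le_rfl
  rw [← hb] at hfirst
  have hL : E / (rad x / 2 * √(rad x ^ (m - 1))) = 2 * (E / √(rad x ^ (m + 1))) := by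
    have h1 : √(rad x ^ (m + 1)) = rad x * √(rad x ^ (m - 1)) := by
      have h2 : rad x ^ (m + 1) = rad x ^ 2 * rad x ^ (m - 1) := by
        rw [← pow_add]
        congr 1
        omega
      rw [h2, Real.sqrt_mul (by positivity), Real.sqrt_sq hR.le]
    rw [h1]
    have h3 : 0 < √(rad x ^ (m - 1)) := Real.sqrt_pos.2 (by positivity)
    field_simp
  rw [hL] at hfirst
  set A : ℝ := 2 * b * (2 ^ (m - 1) * (N * rad x ^ (m - 1))) with hA
  set B : ℝ := 2 * C1 * (P / rad x ^ (m - 1)) with hB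
  have hA0 : 0 ≤ A := by positivity
  have hB0 : 0 ≤ B := by positivity
  have hsec : ∀ l : ℝ, 0 < l →
      ‖∫ s in (0 : ℝ)..(rad x / 2), ∫ y : V m, bump y • Om v (x + s • y) y‖ ≤
        Real.pi / 2 * (A * l + B / l) := by
    intro l hl
    set g : ℝ → ℝ := fun s => (A + B / l ^ 2) * (1 / (1 + (s / l) ^ 2)) with hg
    have hgc : Continuous g := by
      have : ∀ s : ℝ, (1 + (s / l) ^ 2) ≠ 0 := fun s => by positivity
      fun_prop (disch := assumption)
    have h1 : ∀ s : ℝ, s ∈ Set.Ioc (0 : ℝ) (rad x / 2) →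
        ‖∫ y : V m, bump y • Om v (x + s • y) y‖ ≤ g s := by
      intro s hs
      have h2 := SF_bound1 hv hN0 hcurl hs.1 hs.2
      have h3 := SF_bound3 hm hC1 hcap hv ha hP0 hP hs.1 hs.2
      rw [← hb, ← hA] at h2
      rw [← hB] at h3
      have hs0 := hs.1
      rw [hg]
      simp only
      rw [mul_one_div, le_div_iff₀ (by positivity), mul_add, mul_one]
      have h4 : ‖∫ y : V m, bump y • Om v (x + s • y) y‖ * (s / l) ^ 2 ≤ B / l ^ 2 := by
        calc ‖∫ y : V m, bump y • Om v (x + s • y) y‖ * (s / l) ^ 2 ≤ B / s ^ 2 * (s / l) ^ 2 :=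
              mul_le_mul_of_nonneg_right h3 (by positivity)
          _ = B / l ^ 2 := by field_simp
      linarith
    have h5 := intervalIntegral.norm_integral_le_of_norm_le (μ := volume)
      (f := fun s => ∫ y : V m, bump y • Om v (x + s • y) y) (g := g) (a := 0) (b := rad x / 2)
      hδ.le (Eventually.of_forall h1) (hgc.intervalIntegrable _ _)
    refine h5.trans ?_
    have h6 : ∫ s in (0 : ℝ)..(rad x / 2), g s =
        (A + B / l ^ 2) * (l * Real.arctan (rad x / 2 / l)) := by
      rw [hg, intervalIntegral.integral_const_mul]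
      congr 1
      rw [intervalIntegral.integral_comp_div (fun s => 1 / (1 + s ^ 2)) hl.ne',
        integral_one_div_one_add_sq]
      simp
    have h7 : 0 ≤ Real.arctan (rad x / 2 / l) := Real.arctan_nonneg.2 (by positivity)
    have h8 := (Real.arctan_lt_pi_div_two (rad x / 2 / l)).le
    rw [h6]
    calc (A + B / l ^ 2) * (l * Real.arctan (rad x / 2 / l))
        ≤ (A + B / l ^ 2) * (l * (Real.pi / 2)) := by gcongr
      _ = Real.pi / 2 * (A * l + B / l) := by
          field_simp
  have hsec2 := SF_opt hA0 hB0 (by positivity) hsec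
  have hAB : √(A * B) = K * √(N * P) := by
    rw [hK, ← Real.sqrt_mul (by positivity)]
    congr 1
    rw [hA, hB]
    have h1 : rad x ^ (m - 1) ≠ 0 := by positivity
    field_simp
  rw [hAB] at hsec2
  have hE' : 0 ≤ E / √(rad x ^ (m + 1)) := by positivity
  have hS' : 0 ≤ √(N * P) := Real.sqrt_nonneg _
  have hmain : c0 m * ‖v x‖ ≤ (b + C1 + Real.pi * K) *
      (E / √(rad x ^ (m + 1)) + √(N * P)) := by
    calc c0 m * ‖v x‖ = ‖c0 m • v x‖ := by rw [norm_smul, Real.norm_of_nonneg hc.le]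
      _ = ‖(∫ y : V m, bump y • v (x + (rad x / 2) • y))
          - ∫ s in (0 : ℝ)..(rad x / 2), ∫ y : V m, bump y • Om v (x + s • y) y‖ := by rw [havg]
      _ ≤ (b + C1) / 2 * (2 * (E / √(rad x ^ (m + 1)))) +
          2 * (Real.pi / 2) * (K * √(N * P)) :=
          (norm_sub_le _ _).trans (add_le_add hfirst hsec2)
      _ ≤ _ := by
          have h1 : 0 ≤ Real.pi * K := by positivity
          have h2 : 0 ≤ b + C1 := by positivity
          nlinarith [mul_nonneg h1 hE', mul_nonneg h2 hS']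
  rw [div_mul_eq_mul_div, le_div_iff₀ hc]
  linarith

end Pool.Agent.Lib.MP_c167ed_anC
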