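import Pool.Agent.Lib.MP_c167ed_anC.TrajC
import Pool.Agent.Lib.MP_c167ed_an.Signed

/-!
# MP_c167ed_an: the support of the vorticity stays bounded; the `L¹` norm of the vorticity
-/

open MeasureTheory Set Filter Topology
open scoped ContDiff ENNReal NNReal

namespace Pool.Agent.Lib.MP_c167ed_anC

open Pool.Agent.Lib.MP_c167ed_an

variable {m : ℕ} {T : ℝ} {u : ℝ → V m → V m} {p : ℝ → V m → ℝ}

/-- the `L¹` norm of the vorticity -/
noncomputable def curlMass {m : ℕ} (v : V m → V m) : ℝ≥0∞ := ∫⁻ x, ENNReal.ofReal (curl v x)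

theorem norm_emb_rad (hm : 1 ≤ m) (x : V m) : ‖(emb (rad x) (ax x) : V m)‖ = ‖x‖ := by
  have h1 := SymAux.sym_norm_sq_eq x
  have h2 := SymAux.sym_norm_sq_eq (emb (rad x) (ax x) : V m)
  rw [rad_emb hm, ax_emb hm, sq_abs, ← h1] at h2
  exact (pow_left_inj₀ (norm_nonneg _) (norm_nonneg _) two_ne_zero).1 h2

/-- the support of the vorticity stays bounded -/
theorem supp_bdd (hm : 2 ≤ m) (h : EulerSolution m T u p)
    (hax : ∀ t ∈ Ico 0 T, AxisymNoSwirl (u t)) {R : ℝ} (hR : ∀ x, R < ‖x‖ → curl (u 0) x = 0)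
    {t : ℝ} (ht : t ∈ Ico 0 T) : ∃ R', ∀ x, R' < ‖x‖ → curl (u t) x = 0 := by
  have hm1 : 1 ≤ m := by omega
  rcases ht.1.eq_or_lt with h0 | h0
  · rw [← h0]; exact ⟨R, hR⟩
  obtain ⟨C, hC0, hC⟩ := h.bounds01 ht.2
  have h0T : (0 : ℝ) ∈ Ico 0 T := ⟨le_rfl, h0.trans ht.2⟩
  refine ⟨R + 2 * (C * t), fun x hx => ?_⟩
  rcases (rad_nonneg x).eq_or_lt with hr | hr
  · exact curl_axis hm1 (h.contDiff ht) (hax t ht) hr.symm
  obtain ⟨ρ, ζ, -, -, hpos, -, hρt, hζt, hq, hU⟩ := exists_traj_all hm h hax ⟨h0, ht.2⟩ hr (z := ax x)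
  obtain ⟨h1, h2⟩ := hU C fun s hs x => (hC s hs x).1
  have h00 : (0 : ℝ) ∈ Icc 0 t := ⟨le_rfl, h0.le⟩
  have hρ0 := hpos 0 h00
  have h3 := traj_emb_sub (m := m) (rad x) (ax x) (ρ 0) (ζ 0)
  have h4 := norm_sub_norm_le (emb (rad x) (ax x) : V m) (emb (ρ 0) (ζ 0))
  rw [norm_emb_rad hm1] at h4
  have h5 : R < ‖(emb (ρ 0) (ζ 0) : V m)‖ := by linarith
  have h6 := hR _ h5
  rw [curl_eq_abs_om hm1 (h.contDiff h0T) (hax 0 h0T) (by rw [rad_emb hm1, abs_of_pos hρ0]; exact hρ0),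
    rad_emb hm1, ax_emb hm1, abs_of_pos hρ0, abs_eq_zero] at h6
  have h7 := hq t ⟨h0.le, le_rfl⟩
  rw [hρt, hζt, h6, zero_div, div_eq_zero_iff] at h7
  rw [curl_eq_abs_om hm1 (h.contDiff ht) (hax t ht) hr, abs_eq_zero]
  exact h7.resolve_right (pow_pos hr _).ne'

theorem curlMass_lt_top {v : V m → V m} (hv : ContDiff ℝ ∞ v) {R : ℝ}
    (hR : ∀ x, R < ‖x‖ → curl v x = 0) : curlMass v < ⊤ := by
  have hs : HasCompactSupport (curl v) := by
    refine HasCompactSupport.intro (isCompact_closedBall (0 : V m) R) fun x hx => ?_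
    rw [Metric.mem_closedBall, dist_zero_right, not_le] at hx
    exact hR x hx
  exact ((continuous_curl hv).integrable_of_hasCompactSupport hs).lintegral_lt_top

theorem curl_continuousOn (h : EulerSolution m T u p) :
    ContinuousOn (fun q : ℝ × V m => curl (u q.1) q.2) (Ico 0 T ×ˢ univ) := by
  unfold curl
  refine Real.continuous_sqrt.comp_continuousOn ?_
  refine ContinuousOn.div_const ?_ 2
  refine continuousOn_finsetSum _ fun i _ => continuousOn_finsetSum _ fun j _ => ?_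
  exact (((transport_pd_contDiffOn h i j).continuousOn).sub
    ((transport_pd_contDiffOn h j i).continuousOn)).pow 2

/-- measurable version of the `L¹` norm of the vorticity -/
theorem exists_meas_mass (h : EulerSolution m T u p) :
    ∃ W : ℝ → ℝ≥0∞, Measurable W ∧ ∀ t ∈ Ioo 0 T, W t = curlMass (u t) := by
  classical
  set S : Set (ℝ × V m) := Ioo 0 T ×ˢ univ with hS
  have hSm : MeasurableSet S := measurableSet_Ioo.prod MeasurableSet.univ
  set G : ℝ × V m → ℝ := S.piecewise (fun q => curl (u q.1) q.2) (fun _ => 0) with hG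
  have hGm : Measurable G := by
    refine ContinuousOn.measurable_piecewise ?_ continuousOn_const hSm
    exact (curl_continuousOn h).mono (prod_mono Ioo_subset_Ico_self subset_rfl)
  refine ⟨fun t => ∫⁻ x, ENNReal.ofReal (G (t, x)), ?_, ?_⟩
  · exact (hGm.ennreal_ofReal).lintegral_prod_right'
  · intro t ht
    unfold curlMass
    refine lintegral_congr fun x => ?_
    have : (t, x) ∈ S := ⟨ht, mem_univ _⟩
    rw [hG, piecewise_eq_of_mem _ _ _ this]

end Pool.Agent.Lib.MP_c167ed_anC
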