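import Pool.Agent.Lib.MP_c167ed_anC.PLe
import Pool.Agent.Lib.MP_c167ed_anC.FarC
import Pool.Agent.Lib.MP_c167ed_anC.AbsInt
import Pool.Agent.Lib.MP_c167ed_anC.Supp

/-!
# MP_c167ed_an: conclusions (a criterion with the `L¹` norm of the vorticity; separating data)
-/

open MeasureTheory Set Filter Topology
open scoped ContDiff ENNReal NNReal

namespace Pool.Agent.Lib.MP_c167ed_anC

open Pool.Agent.Lib.MP_c167ed_an

variable {m : ℕ} {T : ℝ} {u : ℝ → V m → V m} {p : ℝ → V m → ℝ}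

/-- the energy bound -/
theorem energy_bd (hT : 0 < T) (h : EulerSolution m T u p) :
    ∃ E : ℝ, 0 ≤ E ∧ ∀ t ∈ Ico 0 T, ∫⁻ x, ‖u t x‖ₑ ^ 2 ≤ ENNReal.ofReal (E ^ 2) := by
  obtain ⟨CE, hCE⟩ := h.sobolev 0 0 hT
  have hE0 : ∫⁻ x, ‖u 0 x‖ₑ ^ 2 ≤ CE := by
    have := hCE 0 (by simp)
    refine le_trans (le_of_eq ?_) this
    congr 1
    ext x
    rw [← ofReal_norm, ← ofReal_norm, norm_iteratedFDeriv_zero]
  refine ⟨√(CE : ℝ), Real.sqrt_nonneg _, fun t ht => ?_⟩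
  have hE2 : (CE : ℝ≥0∞) = ENNReal.ofReal (√(CE : ℝ) ^ 2) := by
    rw [Real.sq_sqrt (NNReal.coe_nonneg _), ENNReal.ofReal_coe_nnreal]
  exact (energy_le h ht).trans (hE0.trans hE2.le)

/-- no singularity if `∫ r |ω|` stays bounded -/
theorem main_of_P (hm3 : 3 ≤ m) (hT : 0 < T) (h : EulerSolution m T u p)
    (h0 : AxisymNoSwirl (u 0)) {R : ℝ} (hR : ∀ x, R < ‖x‖ → curl (u 0) x = 0) {P : ℝ}
    (hP0 : 0 ≤ P) (hPt : ∀ t ∈ Ico 0 T,
      ∫⁻ x : V m, ENNReal.ofReal (rad x * curl (u t) x) ≤ ENNReal.ofReal P) :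
    ∃ C, ∀ t ∈ Ico 0 T, ∀ x, curl (u t) x ≤ C := by
  have hm1 : 1 ≤ m := by omega
  have hax := axisym_preserved (by omega) h h0
  have hQ := Q_init_compact hm3 (h.contDiff ⟨le_rfl, hT⟩) h0 hR
  obtain ⟨K, W, A0, C1, D⟩ := absData hm3 hT h hax hQ
  obtain ⟨Cf, hCf, hfar⟩ := signed_far hm1
  obtain ⟨E, hE, hEt⟩ := energy_bd hT h
  obtain ⟨C, hC⟩ := abs_signed hm3 D (by
    intro ε hε N hN
    refine ⟨Cf * (E / √((2 * ε) ^ (m + 1)) + √(N * P / (2 * ε))), by positivity, ?_⟩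
    intro t ht hw r hr z
    have hr0 : 0 < r := by linarith
    have hrad : rad (emb r z : V m) = r := by rw [rad_emb hm1, abs_of_pos hr0]
    have key := hfar (u t) (h.contDiff ht) (h.divfree t ht) (hax t ht) E P N hE hP0 hN
      (hEt t ht) (hPt t ht) (emb r z) (by rw [hrad]; exact hr0) ?_
    · rw [hrad] at key
      have h1 : u t (emb r z) 0 ≤ ‖u t (emb r z)‖ :=
        (le_abs_self _).trans (by simpa using PiLp.norm_apply_le (u t (emb r z)) 0)
      refine h1.trans (key.trans ?_)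
      gcongr
    · intro y hy
      rw [hrad] at hy
      have hy0 : 0 < rad y := by linarith
      rw [curl_eq_abs_om hm1 (h.contDiff ht) (hax t ht) hy0]
      exact hw _ (by linarith) _)
  exact ⟨C, curl_bdd_of_om hm1 h hax hC⟩

/-- separating data -/
theorem main_sep (hm3 : 3 ≤ m) (hT : 0 < T) (h : EulerSolution m T u p)
    (h0 : AxisymNoSwirl (u 0)) {R : ℝ} (hR : ∀ x, R < ‖x‖ → curl (u 0) x = 0)
    (hrf : ReflSym (u 0)) (hs : ∀ r, 0 < r → ∀ z, 0 < z → 0 ≤ om (u 0) r z) :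
    ∃ C, ∀ t ∈ Ico 0 T, ∀ x, curl (u t) x ≤ C := by
  have hax := axisym_preserved (by omega) h h0
  have hPfin := P_init_compact (h.contDiff ⟨le_rfl, hT⟩) hR
  refine main_of_P hm3 hT h h0 hR
    (P := (∫⁻ x : V m, ENNReal.ofReal (rad x * curl (u 0) x)).toReal) ENNReal.toReal_nonneg
    fun t ht => ?_
  exact (P_le_sep (by omega) h hax (refl_preserved h hrf) hs ht).trans
    (le_of_eq (ENNReal.ofReal_toReal hPfin.ne).symm)

/-- no singularity if `∫_0^T ‖ω(t)‖_1^{1/2} dt < ∞` -/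
theorem main_L1 (hm3 : 3 ≤ m) (hT : 0 < T) (h : EulerSolution m T u p)
    (h0 : AxisymNoSwirl (u 0)) {R : ℝ} (hR : ∀ x, R < ‖x‖ → curl (u 0) x = 0)
    (hW : ∫⁻ t in Ioo 0 T, (curlMass (u t)) ^ (1 / 2 : ℝ) < ⊤) :
    ∃ C, ∀ t ∈ Ico 0 T, ∀ x, curl (u t) x ≤ C := by
  have hm1 : 1 ≤ m := by omega
  have hax := axisym_preserved (by omega) h h0
  have hQ := Q_init_compact hm3 (h.contDiff ⟨le_rfl, hT⟩) h0 hR
  obtain ⟨K, W, A0, C1, D⟩ := absData hm3 hT h hax hQ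
  obtain ⟨Cf, hCf, hfar⟩ := far_L1 hm1
  obtain ⟨E, hE, hEt⟩ := energy_bd hT h
  obtain ⟨Wm, hWm, hWeq⟩ := exists_meas_mass h
  have hfin : ∀ t ∈ Ioo 0 T, curlMass (u t) < ⊤ := by
    intro t ht
    obtain ⟨R', hR'⟩ := supp_bdd (by omega) h hax hR (⟨ht.1.le, ht.2⟩ : t ∈ Ico 0 T)
    exact curlMass_lt_top (h.contDiff ⟨ht.1.le, ht.2⟩) hR'
  set b : ℝ → ℝ := fun t => √(Wm t).toReal with hb
  have hb0 : ∀ t, 0 ≤ b t := fun t => Real.sqrt_nonneg _
  have hbm : Measurable b := hWm.ennreal_toReal.sqrt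
  have hbi : IntegrableOn b (Ioo 0 T) := by
    refine ⟨hbm.aestronglyMeasurable, ?_⟩
    rw [hasFiniteIntegral_iff_ofReal (ae_of_all _ hb0)]
    refine lt_of_le_of_lt (le_of_eq ?_) hW
    refine setLIntegral_congr_fun measurableSet_Ioo fun t ht => ?_
    have h1 := hfin t ht
    simp only [hb]
    rw [hWeq t ht, Real.sqrt_eq_rpow, ENNReal.toReal_rpow,
      ENNReal.ofReal_toReal (ENNReal.rpow_ne_top_of_nonneg (by norm_num) h1.ne)]
  obtain ⟨C, hC⟩ := abs_int hm3 D hb0 hbi (by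
    intro ε hε N hN
    refine ⟨Cf * (E / √((2 * ε) ^ (m + 1)) + √N), by positivity, ?_⟩
    intro t ht hw r hr z
    have ht' : t ∈ Ico 0 T := ⟨ht.1.le, ht.2⟩
    have hr0 : 0 < r := by linarith
    have hrad : rad (emb r z : V m) = r := by rw [rad_emb hm1, abs_of_pos hr0]
    have hM : ∫⁻ x : V m, ENNReal.ofReal (curl (u t) x) ≤ ENNReal.ofReal (Wm t).toReal := by
      rw [hWeq t ht, ENNReal.ofReal_toReal (hfin t ht).ne]
      exact le_rfl
    have key := hfar (u t) (h.contDiff ht') (h.divfree t ht') (hax t ht') E (Wm t).toReal N hE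
      ENNReal.toReal_nonneg hN (hEt t ht') hM (emb r z) (by rw [hrad]; exact hr0) ?_
    · rw [hrad] at key
      have h1 : u t (emb r z) 0 ≤ ‖u t (emb r z)‖ :=
        (le_abs_self _).trans (by simpa using PiLp.norm_apply_le (u t (emb r z)) 0)
      refine h1.trans (key.trans ?_)
      have h2 : √(N * (Wm t).toReal) = √N * b t := Real.sqrt_mul hN _
      have h3 : E / √(r ^ (m + 1)) ≤ E / √((2 * ε) ^ (m + 1)) := by gcongr
      have h4 : 0 ≤ E / √((2 * ε) ^ (m + 1)) := by positivity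
      have h5 : 0 ≤ √N := Real.sqrt_nonneg _
      have h6 := hb0 t
      rw [h2, mul_assoc]
      refine mul_le_mul_of_nonneg_left ?_ hCf.le
      nlinarith [mul_nonneg h4 h6]
    · intro y hy
      rw [hrad] at hy
      have hy0 : 0 < rad y := by linarith
      rw [curl_eq_abs_om hm1 (h.contDiff ht') (hax t ht') hy0]
      exact hw _ (by linarith) _)
  exact ⟨C, curl_bdd_of_om hm1 h hax hC⟩

end Pool.Agent.Lib.MP_c167ed_anC
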