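import Pool.Agent.Lib.MP_c167ed_anC.RateMain
import Pool.Agent.Lib.MP_c167ed_anC.MainC

/-!
# MP_c167ed_an: lower bound of the blow-up rate (`d ≥ 7`), conclusion
-/

open MeasureTheory Set Filter Topology
open scoped ContDiff ENNReal NNReal

namespace Pool.Agent.Lib.MP_c167ed_anC

open Pool.Agent.Lib.MP_c167ed_an

/-- the dichotomy, abstract form -/
theorem abs_rate_end {m : ℕ} {T : ℝ} {a w : ℝ → ℝ → ℝ → ℝ} {K W A0 C1 : ℝ} (hm : 6 ≤ m)
    (D : AbsData m T a w K W A0 C1) (htraj : TrajAll m T a w) {C2 : ℝ}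
    (hC2 : 0 ≤ C2)
    (far : ∀ t ∈ Ico 0 T, ∀ r, 0 < r → ∀ z δ M : ℝ, 0 < δ → δ ≤ r / 2 → 0 ≤ M →
      (∀ r', 0 < r' → ∀ z', |w t r' z'| ≤ M) →
      a t r z ≤ C2 * (1 / (δ * √(r ^ (m - 1))) + δ * M))
    (hsing : ¬ ∃ C, ∀ t ∈ Ico 0 T, ∀ r, 0 < r → ∀ z, |w t r z| ≤ C) :
    ∃ c > 0, ∃ s0 < T, ∀ s ∈ Ico 0 T, s0 ≤ s → ∃ r z, 0 < r ∧
      c * (T - s) ^ (-(4 / ((m : ℝ) - 5))) ≤ r ∧ c * (T - s) ^ (-(kpp m)) ≤ |w s r z| := by
  obtain ⟨ε, N, A, a0, hε, hN, hA, ha0, ⟨μ, hμ, hnear⟩, hfarw, hkey⟩ :=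
    abs_rate hm D htraj hC2 far
  have hθ := tht_pos hm
  have hβ := bet_pos hm
  have hκ := kpp_pos hm
  have hm6 : (6 : ℝ) ≤ m := by exact_mod_cast hm
  set c1 : ℝ := (2 * A) ^ (-(kpp m)) * (1 / 4 : ℝ) ^ (1 / bet m) with hc1
  have hc10 : 0 < c1 := by positivity
  set n1 : ℝ := ((m - 1 : ℕ) : ℝ) with hn1
  have hn10 : 0 < n1 := by
    rw [hn1]
    exact_mod_cast (by omega : 0 < m - 1)
  set c2 : ℝ := (c1 / N) ^ (1 / n1) with hc2
  have hc20 : 0 < c2 := by positivity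
  set δ : ℝ := min (a0 / (2 * A)) ((c1 / (μ + 1)) ^ (1 / kpp m)) with hδ
  have hδ0 : 0 < δ := by
    refine lt_min (by positivity) (Real.rpow_pos_of_pos (by positivity) _)
  refine ⟨min c1 c2, lt_min hc10 hc20, T - δ, by linarith, ?_⟩
  intro s hs hsδ
  have hTs : 0 < T - s := by linarith [hs.2]
  have hTsδ : T - s ≤ δ := by linarith
  have h2A : 2 * (A * (T - s)) ≤ a0 := by
    have h1 : T - s ≤ a0 / (2 * A) := hTsδ.trans (min_le_left _ _)
    rw [le_div_iff₀ (by positivity)] at h1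
    linarith
  -- a point with large vorticity
  have hex : ∃ r, 0 < r ∧ ∃ z,
      ((A * ((2 * T - s) - s)) ^ (-(tht m)) / 4) ^ (1 / bet m) < |w s r z| := by
    by_contra hcon
    push Not at hcon
    apply hsing
    have h1 := hkey s hs (2 * T - s) (by linarith) (by linarith) hcon
    obtain ⟨C, hC⟩ := D.loc s hs.2
    refine ⟨max C ((A * (T - s)) ^ (-(kpp m))), fun t ht r hr z => ?_⟩
    rcases lt_or_ge t s with h2 | h2
    · exact ((hC t ⟨ht.1, h2.le⟩ r hr z).2).trans (le_max_left _ _)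
    · refine (h1 t ⟨h2, ht.2⟩ r hr z).trans (le_trans ?_ (le_max_right _ _))
      refine Real.rpow_le_rpow_of_nonpos (by positivity) ?_ (by linarith)
      have := ht.2.le
      exact mul_le_mul_of_nonneg_left (by linarith) hA.le
  obtain ⟨r, hr, z, hrz⟩ := hex
  have heq : ((A * ((2 * T - s) - s)) ^ (-(tht m)) / 4) ^ (1 / bet m) =
      c1 * (T - s) ^ (-(kpp m)) := by
    have h1 : A * ((2 * T - s) - s) = (2 * A) * (T - s) := by ring
    have h2 : -(tht m) * (1 / bet m) = -(kpp m) := by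
      have := kpp_mul_bet hm
      field_simp
      linarith
    rw [h1, div_eq_mul_one_div, Real.mul_rpow (by positivity) (by norm_num),
      ← Real.rpow_mul (by positivity), h2, Real.mul_rpow (by positivity) hTs.le, hc1]
    ring
  rw [heq] at hrz
  have hpw : 0 < (T - s) ^ (-(kpp m)) := Real.rpow_pos_of_pos hTs _
  -- the radius
  have hlarge : μ + 1 ≤ c1 * (T - s) ^ (-(kpp m)) := by
    have h1 : T - s ≤ (c1 / (μ + 1)) ^ (1 / kpp m) := hTsδ.trans (min_le_right _ _)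
    have h2 : ((c1 / (μ + 1)) ^ (1 / kpp m)) ^ (-(kpp m)) ≤ (T - s) ^ (-(kpp m)) :=
      Real.rpow_le_rpow_of_nonpos hTs h1 (by linarith)
    rw [← Real.rpow_mul (by positivity)] at h2
    have h3 : 1 / kpp m * -(kpp m) = -1 := by field_simp
    rw [h3, Real.rpow_neg_one, inv_div] at h2
    calc μ + 1 = c1 * ((μ + 1) / c1) := by field_simp
      _ ≤ _ := by gcongr
  have hrε : ε ≤ r := by
    by_contra hcon
    push Not at hcon
    have h1 := hnear s hs r ⟨hr, by linarith⟩ z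
    linarith
  have h1 := hfarw s hs r hrε z
  have h2 : c1 / N * (T - s) ^ (-(kpp m)) ≤ r ^ (m - 1) := by
    rw [div_mul_eq_mul_div, div_le_iff₀ hN]
    linarith
  have h3 : c2 * (T - s) ^ (-(4 / ((m : ℝ) - 5))) ≤ r := by
    have h4 : (c1 / N * (T - s) ^ (-(kpp m))) ^ (1 / n1) ≤ (r ^ (m - 1)) ^ (1 / n1) :=
      Real.rpow_le_rpow (by positivity) h2 (by positivity)
    have h5 : (r ^ (m - 1)) ^ (1 / n1) = r := by
      rw [← Real.rpow_natCast, ← Real.rpow_mul hr.le, ← hn1, mul_one_div_cancel hn10.ne',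
        Real.rpow_one]
    have h6 : -(kpp m) * (1 / n1) = -(4 / ((m : ℝ) - 5)) := by
      have h7 : n1 = (m : ℝ) - 1 := by
        rw [hn1, Nat.cast_sub (by omega), Nat.cast_one]
      have h8 : (m : ℝ) - 5 ≠ 0 := by linarith
      have h9 : (m : ℝ) - 1 ≠ 0 := by linarith
      rw [h7]
      unfold kpp
      field_simp
    rw [h5, Real.mul_rpow (by positivity) hpw.le, ← Real.rpow_mul hTs.le, h6] at h4
    exact h4
  refine ⟨r, z, hr, ?_, ?_⟩
  · refine le_trans ?_ h3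
    have : 0 < (T - s) ^ (-(4 / ((m : ℝ) - 5))) := Real.rpow_pos_of_pos hTs _
    gcongr
    exact min_le_right _ _
  · refine le_trans ?_ hrz.le
    gcongr
    exact min_le_left _ _

variable {m : ℕ} {T : ℝ} {u : ℝ → V m → V m} {p : ℝ → V m → ℝ}

/-- lower bound of the blow-up rate -/
theorem main_rate (hm : 6 ≤ m) (hT : 0 < T) (h : EulerSolution m T u p)
    (h0 : AxisymNoSwirl (u 0)) {R : ℝ} (hR : ∀ x, R < ‖x‖ → curl (u 0) x = 0)
    (hsing : ¬ ∃ C, ∀ t ∈ Ico 0 T, ∀ x, curl (u t) x ≤ C) :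
    ∃ c > 0, ∃ s0 < T, ∀ t ∈ Ico 0 T, s0 ≤ t → ∃ x : V m,
      c * (T - t) ^ (-(4 / ((m : ℝ) - 5))) ≤ rad x ∧
      c * (T - t) ^ (-(4 * ((m : ℝ) - 1) / ((m : ℝ) - 5))) ≤ curl (u t) x := by
  have hm1 : 1 ≤ m := by omega
  have hm3 : 3 ≤ m := by omega
  have hax := axisym_preserved (by omega) h h0
  have hQ := Q_init_compact hm3 (h.contDiff ⟨le_rfl, hT⟩) h0 hR
  obtain ⟨K, W, A0, C1, D⟩ := absData hm3 hT h hax hQ
  obtain ⟨C2, hC2, far⟩ := far_est hm3 hT h hax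
  have htraj : TrajAll m T (fun t r z => u t (emb r z) 0) (fun t r z => om (u t) r z) := by
    intro t ht r hr z
    obtain ⟨ρ, ζ, h1, -, h3, h4, h5, h6, h7, -⟩ := exists_traj_all (by omega) h hax ht (z := z) hr
    exact ⟨ρ, ζ, h1, h3, h4, h5, h6, h7⟩
  obtain ⟨c, hc, s0, hs0, hall⟩ := abs_rate_end hm D htraj hC2 far (by
    rintro ⟨C, hC⟩
    exact hsing ⟨C, curl_bdd_of_om hm1 h hax hC⟩)
  refine ⟨c, hc, s0, hs0, fun t ht hts => ?_⟩
  obtain ⟨r, z, hr, h1, h2⟩ := hall t ht hts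
  have hrad : rad (emb r z : V m) = r := by rw [rad_emb hm1, abs_of_pos hr]
  refine ⟨emb r z, by rw [hrad]; exact h1, ?_⟩
  rw [curl_eq_abs_om hm1 (h.contDiff ht) (hax t ht) (by rw [hrad]; exact hr), hrad, ax_emb hm1]
  exact h2

end Pool.Agent.Lib.MP_c167ed_anC
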