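import Pool.Agent.Lib.MP_c167ed_an.Main

/-!
# MP_c167ed_an: `|ω(t,x)| ≤ C (r + r^{d-2})` up to the blow-up time, every dimension
-/

open MeasureTheory Set Filter Topology
open scoped ContDiff ENNReal NNReal

namespace Pool.Agent.Lib.MP_c167ed_anC

open Pool.Agent.Lib.MP_c167ed_an

/-- abstract form -/
theorem abs_rel {m : ℕ} {T : ℝ} {a w : ℝ → ℝ → ℝ → ℝ} {K W A0 C1 : ℝ} (hm : 3 ≤ m)
    (D : AbsData m T a w K W A0 C1) :
    ∃ C, 0 ≤ C ∧ ∀ t ∈ Ico 0 T, ∀ r, 0 < r → ∀ z, |w t r z| ≤ C * (r + r ^ (m - 1)) := by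
  obtain ⟨ε, η', μ, hε, hε1, hη', hμ, hnear, htr⟩ := abs_near hm D
  have hW : 0 ≤ W := D.hW
  set η := min η' ε with hηdef
  have hη : 0 < η := lt_min hη' hε
  have hηle : η ≤ η' := min_le_left _ _
  set N : ℝ := W / η ^ (m - 1) with hN
  have hN0 : 0 ≤ N := by positivity
  refine ⟨μ + N, by positivity, fun t ht r hr z => ?_⟩
  have hrp : 0 < r ^ (m - 1) := pow_pos hr _
  rcases lt_or_ge r ε with hrε | hrε
  · have h1 := hnear t ht r ⟨hr, by linarith⟩ z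
    have h2 : 0 ≤ μ * r ^ (m - 1) := by positivity
    have h3 : 0 ≤ N * (r + r ^ (m - 1)) := by positivity
    calc |w t r z| ≤ μ * r := h1
      _ ≤ (μ + N) * (r + r ^ (m - 1)) := by linarith
  · have h1 : |w t r z| ≤ N * r ^ (m - 1) := by
      rcases eq_or_lt_of_le ht.1 with h0 | h0
      · rw [← h0]
        refine (D.initW r hr z).trans ?_
        have h1 : η ^ (m - 1) ≤ r ^ (m - 1) := by
          have : η ≤ r := (min_le_right _ _).trans hrε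
          gcongr
        rw [hN, div_mul_eq_mul_div, le_div_iff₀ (by positivity)]
        gcongr
      · obtain ⟨ρ, ζ, hρc, hρpos, hρd, hρt, hρw⟩ := D.traj t ⟨h0, ht.2⟩ r hr z
        have hρ0 : 0 < ρ 0 := hρpos 0 ⟨le_rfl, h0.le⟩
        have hη1 : η' ≤ ρ 0 := htr t ⟨h0, ht.2⟩ ρ ζ hρc hρpos hρd (by rw [hρt]; exact hrε)
        have hη2 : η ≤ ρ 0 := hηle.trans hη1
        have hweq : w t r z = w 0 (ρ 0) (ζ 0) / (ρ 0) ^ (m - 1) * r ^ (m - 1) := by
          rw [← hρw]; field_simp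
        rw [hweq, abs_mul, abs_div, abs_of_pos (pow_pos hρ0 _), abs_of_pos hrp]
        have h2 := D.initW _ hρ0 (ζ 0)
        rw [hN]
        gcongr
    have h2 : 0 ≤ μ * (r + r ^ (m - 1)) := by positivity
    have h3 : 0 ≤ N * r := by positivity
    calc |w t r z| ≤ N * r ^ (m - 1) := h1
      _ ≤ (μ + N) * (r + r ^ (m - 1)) := by linarith

variable {m : ℕ} {T : ℝ} {u : ℝ → V m → V m} {p : ℝ → V m → ℝ}

/-- `|ω(t,x)| ≤ C (r + r^{d-2})` on `[0,T) × ℝ^d` -/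
theorem main_rel (hm : 3 ≤ m) (hT : 0 < T) (h : EulerSolution m T u p)
    (h0 : AxisymNoSwirl (u 0)) {R : ℝ} (hR : ∀ x, R < ‖x‖ → curl (u 0) x = 0) :
    ∃ C, ∀ t ∈ Ico 0 T, ∀ x, curl (u t) x ≤ C * (rad x + rad x ^ (m - 1)) := by
  have hm1 : 1 ≤ m := by omega
  have hax := axisym_preserved (by omega) h h0
  have hQ := Q_init_compact hm (h.contDiff ⟨le_rfl, hT⟩) h0 hR
  obtain ⟨K, W, A0, C1, D⟩ := absData hm hT h hax hQ
  obtain ⟨C, hC0, hC⟩ := abs_rel hm D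
  refine ⟨C, fun t ht x => ?_⟩
  rcases (rad_nonneg x).eq_or_lt with hr | hr
  · rw [curl_axis hm1 (h.contDiff ht) (hax t ht) hr.symm]
    have h1 : 0 ≤ rad x := rad_nonneg x
    positivity
  · rw [curl_eq_abs_om hm1 (h.contDiff ht) (hax t ht) hr]
    exact hC t ht _ hr _

end Pool.Agent.Lib.MP_c167ed_anC
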