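import Pool.Agent.Lib.MP_c167ed_anC.DecC
import Pool.Agent.Lib.MP_c167ed_anC.RelC
import Pool.Agent.Lib.MP_c167ed_anC.RateEnd

/-!
# MP_c167ed_an: conclusions for data whose vorticity decays along the axis
-/

open MeasureTheory Set Filter Topology
open scoped ContDiff ENNReal NNReal

namespace Pool.Agent.Lib.MP_c167ed_anC

open Pool.Agent.Lib.MP_c167ed_an

/-- compactly supported vorticity decays along the axis -/
theorem AxisDecay.of_compact {m : ℕ} (hm : 1 ≤ m) {v : V m → V m} (hv : ContDiff ℝ ∞ v)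
    (hax : AxisymNoSwirl v) {R : ℝ} (hR : ∀ x, R < ‖x‖ → curl v x = 0) : AxisDecay v := by
  set R1 : ℝ := max R 1 with hR1
  have hR10 : 0 < R1 := lt_of_lt_of_le one_pos (le_max_right _ _)
  obtain ⟨S, hS⟩ := (isCompact_closedBall (0 : V m) (R1 + R1)).exists_bound_of_continuousOn
    (hv.continuous_iteratedFDeriv (m := 2)
      (WithTop.coe_le_coe.2 le_top)).continuousOn
  have hS0 : 0 ≤ S := (norm_nonneg _).trans
    (hS 0 (by rw [Metric.mem_closedBall, dist_self]; linarith))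
  refine ⟨2 * S * (1 + R1), fun x _ => ?_⟩
  have hrad0 := rad_nonneg x
  by_cases hxR : R < ‖x‖
  · rw [hR x hxR]
    positivity
  · have hxR' : ‖x‖ ≤ R1 := (not_lt.1 hxR).trans (le_max_left _ _)
    have haxR : |ax x| ≤ R1 := (by
      have h := PiLp.norm_apply_le x (Fin.last m)
      rw [Real.norm_eq_abs] at h
      exact h : |ax x| ≤ ‖x‖).trans hxR'
    have hradR : rad x ≤ R1 := (rad_le_norm x).trans hxR'
    have h1 : curl v x ≤ 2 * S * rad x := by
      rcases hrad0.eq_or_lt with hx | hx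
      · rw [curl_axis hm hv hax hx.symm, ← hx, mul_zero]
      · rw [curl_eq_abs_om hm hv hax hx]
        refine abs_om_le hm hv hax hx.le fun r' hr' => ?_
        apply hS
        rw [Metric.mem_closedBall, dist_zero_right]
        refine (qinita_norm_emb r' (ax x)).trans (add_le_add ?_ haxR)
        rw [abs_of_nonneg hr'.1]
        exact hr'.2.trans hradR
    refine h1.trans ?_
    rw [le_div_iff₀ (by positivity)]
    have h2 : 0 ≤ 2 * S * rad x := by positivity
    calc 2 * S * rad x * (1 + |ax x|) ≤ 2 * S * rad x * (1 + R1) := by gcongr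
      _ = _ := by ring

variable {m : ℕ} {T : ℝ} {u : ℝ → V m → V m} {p : ℝ → V m → ℝ}

/-- `|ω(t,x)| ≤ C (r + r^{d-2})` on `[0,T) × ℝ^d` -/
theorem main_relD (hm : 3 ≤ m) (hT : 0 < T) (h : EulerSolution m T u p)
    (h0 : AxisymNoSwirl (u 0)) (hd : AxisDecay (u 0)) :
    ∃ C, ∀ t ∈ Ico 0 T, ∀ x, curl (u t) x ≤ C * (rad x + rad x ^ (m - 1)) := by
  have hm1 : 1 ≤ m := by omega
  have hax := axisym_preserved (by omega) h h0
  obtain ⟨K, W, A0, C1, D⟩ := absData hm hT h hax (Q_init_decay hm hT h hd)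
  obtain ⟨C, hC0, hC⟩ := abs_rel hm D
  refine ⟨C, fun t ht x => ?_⟩
  rcases (rad_nonneg x).eq_or_lt with hr | hr
  · rw [curl_axis hm1 (h.contDiff ht) (hax t ht) hr.symm]
    have h1 : 0 ≤ rad x := rad_nonneg x
    positivity
  · rw [curl_eq_abs_om hm1 (h.contDiff ht) (hax t ht) hr]
    exact hC t ht _ hr _

/-- lower bound of the blow-up rate -/
theorem main_rateD (hm : 6 ≤ m) (hT : 0 < T) (h : EulerSolution m T u p)
    (h0 : AxisymNoSwirl (u 0)) (hd : AxisDecay (u 0))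
    (hsing : ¬ ∃ C, ∀ t ∈ Ico 0 T, ∀ x, curl (u t) x ≤ C) :
    ∃ c > 0, ∃ s0 < T, ∀ t ∈ Ico 0 T, s0 ≤ t → ∃ x : V m,
      c * (T - t) ^ (-(4 / ((m : ℝ) - 5))) ≤ rad x ∧
      c * (T - t) ^ (-(4 * ((m : ℝ) - 1) / ((m : ℝ) - 5))) ≤ curl (u t) x := by
  have hm1 : 1 ≤ m := by omega
  have hm3 : 3 ≤ m := by omega
  have hax := axisym_preserved (by omega) h h0
  obtain ⟨K, W, A0, C1, D⟩ := absData hm3 hT h hax (Q_init_decay hm3 hT h hd)
  obtain ⟨C2, hC2, far⟩ := far_est hm3 hT h hax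
  have htraj : TrajAll m T (fun t r z => u t (emb r z) 0) (fun t r z => om (u t) r z) := by
    intro t ht r hr z
    obtain ⟨ρ, ζ, h1, -, h3, h4, h5, h6, h7, -⟩ := exists_traj_all (by omega) h hax ht (z := z) hr
    exact ⟨ρ, ζ, h1, h3, h4, h5, h6, h7⟩
  obtain ⟨c, hc, s0, hs0, hall⟩ := abs_rate_end hm D htraj hC2 far (by
    rintro ⟨C, hC⟩
    exact hsing ⟨C, curl_bdd_of_om hm1 h hax hC⟩)
  refine ⟨c, hc, s0, hs0, fun t ht hts => ?_⟩
  obtain ⟨r, z, hr, h1, h2⟩ := hall t ht hts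
  have hrad : rad (emb r z : V m) = r := by rw [rad_emb hm1, abs_of_pos hr]
  refine ⟨emb r z, by rw [hrad]; exact h1, ?_⟩
  rw [curl_eq_abs_om hm1 (h.contDiff ht) (hax t ht) (by rw [hrad]; exact hr), hrad, ax_emb hm1]
  exact h2

/-- no singularity if `∫ r |ω|` stays bounded -/
theorem main_of_PD (hm3 : 3 ≤ m) (hT : 0 < T) (h : EulerSolution m T u p)
    (h0 : AxisymNoSwirl (u 0)) (hd : AxisDecay (u 0)) {P : ℝ}
    (hP0 : 0 ≤ P) (hPt : ∀ t ∈ Ico 0 T,
      ∫⁻ x : V m, ENNReal.ofReal (rad x * curl (u t) x) ≤ ENNReal.ofReal P) :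
    ∃ C, ∀ t ∈ Ico 0 T, ∀ x, curl (u t) x ≤ C := by
  have hm1 : 1 ≤ m := by omega
  have hax := axisym_preserved (by omega) h h0
  obtain ⟨K, W, A0, C1, D⟩ := absData hm3 hT h hax (Q_init_decay hm3 hT h hd)
  obtain ⟨Cf, hCf, hfar⟩ := signed_far hm1
  obtain ⟨E, hE, hEt⟩ := energy_bd hT h
  obtain ⟨C, hC⟩ := abs_signed hm3 D (by
    intro ε hε N hN
    refine ⟨Cf * (E / √((2 * ε) ^ (m + 1)) + √(N * P / (2 * ε))), by positivity, ?_⟩
    intro t ht hw r hr z
    have hr0 : 0 < r := by linarith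
    have hrad : rad (emb r z : V m) = r := by rw [rad_emb hm1, abs_of_pos hr0]
    have key := hfar (u t) (h.contDiff ht) (h.divfree t ht) (hax t ht) E P N hE hP0 hN
      (hEt t ht) (hPt t ht) (emb r z) (by rw [hrad]; exact hr0) ?_
    · rw [hrad] at key
      have h1 : u t (emb r z) 0 ≤ ‖u t (emb r z)‖ :=
        (le_abs_self _).trans (by simpa using PiLp.norm_apply_le (u t (emb r z)) 0)
      refine h1.trans (key.trans ?_)
      gcongr
    · intro y hy
      rw [hrad] at hy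
      have hy0 : 0 < rad y := by linarith
      rw [curl_eq_abs_om hm1 (h.contDiff ht) (hax t ht) hy0]
      exact hw _ (by linarith) _)
  exact ⟨C, curl_bdd_of_om hm1 h hax hC⟩

/-- separating data -/
theorem main_sepD (hm3 : 3 ≤ m) (hT : 0 < T) (h : EulerSolution m T u p)
    (h0 : AxisymNoSwirl (u 0)) (hd : AxisDecay (u 0)) (hP : FinImpulse (u 0))
    (hrf : ReflSym (u 0)) (hs : ∀ r, 0 < r → ∀ z, 0 < z → 0 ≤ om (u 0) r z) :
    ∃ C, ∀ t ∈ Ico 0 T, ∀ x, curl (u t) x ≤ C := by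
  have hax := axisym_preserved (by omega) h h0
  refine main_of_PD hm3 hT h h0 hd
    (P := (∫⁻ x : V m, ENNReal.ofReal (rad x * curl (u 0) x)).toReal) ENNReal.toReal_nonneg
    fun t ht => ?_
  exact (P_le_sep (by omega) h hax (refl_preserved h hrf) hs ht).trans
    (le_of_eq (ENNReal.ofReal_toReal (ne_of_lt hP)).symm)

/-- nonnegative vorticity -/
theorem main_posD (hm3 : 3 ≤ m) (hT : 0 < T) (h : EulerSolution m T u p)
    (h0 : AxisymNoSwirl (u 0)) (hd : AxisDecay (u 0)) (hP : FinImpulse (u 0))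
    (hs : ∀ r, 0 < r → ∀ z, 0 ≤ om (u 0) r z) :
    ∃ C, ∀ t ∈ Ico 0 T, ∀ x, curl (u t) x ≤ C := by
  have hax := axisym_preserved (by omega) h h0
  refine main_of_PD hm3 hT h h0 hd
    (P := (∫⁻ x : V m, ENNReal.ofReal (rad x * curl (u 0) x)).toReal) ENNReal.toReal_nonneg
    fun t ht => ?_
  exact (P_le (by omega) h hax hs ht).trans
    (le_of_eq (ENNReal.ofReal_toReal (ne_of_lt hP)).symm)

/-- one-signed vorticity -/
theorem main_signedD (hm3 : 3 ≤ m) (hT : 0 < T) (h : EulerSolution m T u p)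
    (h0 : AxisymNoSwirl (u 0)) (hd : AxisDecay (u 0)) (hP : FinImpulse (u 0))
    (hs : (∀ r, 0 < r → ∀ z, 0 ≤ om (u 0) r z) ∨ (∀ r, 0 < r → ∀ z, om (u 0) r z ≤ 0)) :
    ∃ C, ∀ t ∈ Ico 0 T, ∀ x, curl (u t) x ≤ C := by
  have hm1 : 1 ≤ m := by omega
  rcases hs with hs | hs
  · exact main_posD hm3 hT h h0 hd hP hs
  · have h' := h.rotate (flip m)
    have h0' : AxisymNoSwirl (fun x => (flip m).symm (u 0 (flip m x))) := axisym_flip h0
    have hC0 : ContDiff ℝ ∞ (u 0) := h.contDiff ⟨le_rfl, hT⟩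
    have hC0' : ContDiff ℝ ∞ (fun x => (flip m).symm (u 0 (flip m x))) :=
      (flip m).symm.contDiff.comp (hC0.comp (flip m).contDiff)
    have hax := axisym_preserved (by omega) h h0
    have hcurl : ∀ x, curl (fun x => (flip m).symm (u 0 (flip m x))) x = curl (u 0) (flip m x) := by
      intro x
      rcases (rad_nonneg x).eq_or_lt with h1 | h1
      · rw [curl_axis hm1 hC0' h0' h1.symm,
          curl_axis hm1 hC0 h0 (by rw [rad_flip]; exact h1.symm)]
      · exact curl_flip hm1 hC0 h0 h0' h1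
    obtain ⟨C, hC⟩ := main_posD hm3 hT h' h0' (by
      obtain ⟨K, hK⟩ := hd
      refine ⟨K, fun x hx => ?_⟩
      rw [hcurl]
      have h1 := hK (flip m x) (by rw [rad_flip]; exact hx)
      rwa [rad_flip, ax_flip, abs_neg] at h1) (by
      unfold FinImpulse at hP ⊢
      refine lt_of_le_of_lt (le_of_eq ?_) hP
      refine Eq.trans (lintegral_congr fun x => ?_) (SymAux.lintegral_rot
        (MP_c167ed_an.flip m) fun y : V m => ENNReal.ofReal (rad y * curl (u 0) y))
      rw [hcurl, rad_flip]) (by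
      intro r hr z
      rw [om_flip hm1]
      have := hs r hr (-z)
      linarith)
    refine ⟨C, fun t ht => curl_le_of_off_axis hm1 (h.contDiff ht) fun x hx => ?_⟩
    have h2 := hC t ht (flip m x)
    rw [curl_flip hm1 (h.contDiff ht) (hax t ht) (axisym_flip (hax t ht))
      (by rw [rad_flip]; exact hx), MP_c167ed_an.flip_flip] at h2
    exact h2

end Pool.Agent.Lib.MP_c167ed_anC
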