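import Pool.Agent.Lib.MP_c167ed_anC.PSep

/-!
# MP_c167ed_an, separating data: the integral of `r |ω|` does not increase, conclusion
-/

open MeasureTheory Set Filter Topology
open scoped ContDiff ENNReal NNReal

namespace Pool.Agent.Lib.MP_c167ed_anC

open Pool.Agent.Lib.MP_c167ed_an

variable {m : ℕ} {T : ℝ} {u : ℝ → V m → V m} {p : ℝ → V m → ℝ}

/-- the scales of the smoothed sign -/
noncomputable def ks (m n : ℕ) : ℝ :=
  (1 / (((n : ℝ) + 1) *
    (1 + (volume : Measure (V m)).real (Metric.closedBall 0 (((n : ℝ) + 1) ^ 2))))) ^ 2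

theorem ks_pos (m n : ℕ) : 0 < ks m n := by
  unfold ks
  have h1 : 0 ≤ (volume : Measure (V m)).real (Metric.closedBall 0 (((n : ℝ) + 1) ^ 2)) :=
    measureReal_nonneg
  positivity

theorem ks_le (m n : ℕ) : √(ks m n) *
    (volume : Measure (V m)).real (Metric.closedBall 0 (((n : ℝ) + 1) ^ 2)) ≤ ((n : ℝ) + 1)⁻¹ := by
  unfold ks
  set w := (volume : Measure (V m)).real (Metric.closedBall 0 (((n : ℝ) + 1) ^ 2)) with hw
  have h1 : 0 ≤ w := measureReal_nonneg
  rw [Real.sqrt_sq (by positivity), one_div, mul_inv, mul_assoc]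
  have h2 : (1 + w)⁻¹ * w ≤ 1 := by
    rw [inv_mul_le_iff₀ (by positivity)]
    linarith
  have h3 : 0 ≤ ((n : ℝ) + 1)⁻¹ := by positivity
  exact mul_le_of_le_one_right h3 h2

theorem ks_tendsto (m : ℕ) : Tendsto (ks m) atTop (𝓝 0) := by
  have h1 : Tendsto (fun n : ℕ => 1 / ((n : ℝ) + 1)) atTop (𝓝 0) :=
    tendsto_one_div_add_atTop_nhds_zero_nat (𝕜 := ℝ)
  have h2 : Tendsto (fun n : ℕ => (1 / ((n : ℝ) + 1)) ^ 2) atTop (𝓝 0) := by
    simpa using h1.pow 2
  refine squeeze_zero (fun n => (ks_pos m n).le) (fun n => ?_) h2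
  unfold ks
  have h3 : 0 ≤ (volume : Measure (V m)).real (Metric.closedBall 0 (((n : ℝ) + 1) ^ 2)) :=
    measureReal_nonneg
  have h4 : 0 < (n : ℝ) + 1 := by positivity
  gcongr
  nlinarith

/-- For `z ω ≥ 0`, `u` symmetric, `∫ r |ω| dx` does not increase. -/
theorem P_le_sep (hm : 2 ≤ m) (h : EulerSolution m T u p)
    (hax : ∀ t ∈ Ico 0 T, AxisymNoSwirl (u t)) (hrf : ∀ t ∈ Ico 0 T, ReflSym (u t))
    (hs : ∀ r, 0 < r → ∀ z, 0 < z → 0 ≤ om (u 0) r z) {t : ℝ} (ht : t ∈ Ico 0 T) :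
    ∫⁻ x : V m, ENNReal.ofReal (rad x * curl (u t) x) ≤
      ∫⁻ x : V m, ENNReal.ofReal (rad x * curl (u 0) x) := by
  rcases ht.1.eq_or_lt with h0 | h0
  · rw [← h0]
  have hm1 : 1 ≤ m := by omega
  obtain ⟨C, hC0, hC⟩ := h.bounds01 ht.2
  have hT : 0 < T := h0.trans ht.2
  obtain ⟨E, hE⟩ := h.L2 ht.2
  have hsub : Icc 0 t ⊆ Ico 0 T := fun s hs => ⟨hs.1, hs.2.trans_lt ht.2⟩
  have h0T : (0 : ℝ) ∈ Ico 0 T := ⟨le_rfl, hT⟩
  -- energy
  have henn' : ∀ y : V m, ENNReal.ofReal (‖y‖ ^ 2) = ‖y‖ₑ ^ 2 := fun y => by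
    rw [ENNReal.ofReal_pow (norm_nonneg _), ofReal_norm]
  have hwi : ∀ s ∈ Icc 0 t, Integrable (fun x => ‖u s x‖ ^ 2) := by
    intro s hs'
    refine ⟨((h.contDiff (hsub hs')).continuous.norm.pow 2).aestronglyMeasurable, ?_⟩
    rw [hasFiniteIntegral_iff_ofReal (Eventually.of_forall fun x => by positivity)]
    simp_rw [henn']
    exact (hE s hs').trans_lt ENNReal.coe_lt_top
  have hwE : ∀ s ∈ Icc 0 t, ∫ x, ‖u s x‖ ^ 2 ≤ E := by
    intro s hs'
    have h1 := hE s hs'
    have h2 : ENNReal.ofReal (∫ x, ‖u s x‖ ^ 2) = ∫⁻ x, ‖u s x‖ₑ ^ 2 := by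
      rw [ofReal_integral_eq_lintegral_ofReal (hwi s hs') (Eventually.of_forall fun x => by positivity)]
      simp_rw [henn']
    rw [← h2, ← ENNReal.ofReal_coe_nnreal, ENNReal.ofReal_le_ofReal_iff (NNReal.coe_nonneg _)] at h1
    exact h1
  simp only [rad_mul_curl_abs hm1 (h.contDiff ht) (hax t ht),
    rad_mul_curl_abs hm1 (h.contDiff h0T) (hax 0 h0T)]
  -- cutoffs
  have hpos : ∀ n : ℕ, (0 : ℝ) < (n : ℝ) + 1 := fun n => by positivity
  have hcs : ∀ n : ℕ, ∀ s, 0 ≤ s → ∀ x : V m, x ∉ Metric.closedBall (0 : V m) (((n : ℝ) + 1) ^ 2) →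
      densS u C ((n : ℝ) + 1) (ks m n) C (s, x) = 0 := by
    intro n s hs' x hx
    unfold densS
    rw [chp_compact hC0 (hpos n) (q := (s, x)) hs' hx, zero_mul, mul_zero]
  have hcont : ∀ n : ℕ, ContinuousOn (fun s => ∫ x, densS u C ((n : ℝ) + 1) (ks m n) C (s, x))
      (Icc 0 t) := by
    intro n
    refine continuousOn_integral_of_compact_support (isCompact_closedBall (0 : V m) (((n : ℝ) + 1) ^ 2))
      (f := fun s x => densS u C ((n : ℝ) + 1) (ks m n) C (s, x)) ?_
      fun s x hs' hx => hcs n s hs'.1 x hx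
    refine (densS_contDiffOn h C _ (ks_pos m n) C).continuousOn.mono fun q hq => ⟨hsub hq.1, hq.2⟩
  have hder : ∀ n : ℕ, ∀ s ∈ Ioo 0 t,
      HasDerivAt (fun s => ∫ x, densS u C ((n : ℝ) + 1) (ks m n) C (s, x))
      (∫ x, fderiv ℝ (densS u C ((n : ℝ) + 1) (ks m n) C) (s, x) (1, u s x)) s := by
    intro n s hs'
    have hs2 : s ∈ Ico 0 T := ⟨hs'.1.le, hs'.2.trans ht.2⟩
    exact hasDerivAt_integral_drift (isCompact_closedBall (0 : V m) (((n : ℝ) + 1) ^ 2))
      ((densS_contDiffOn h C _ (ks_pos m n) C).mono (prod_mono Ioo_subset_Ico_self subset_rfl))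
      (fun s' hs' x hx => hcs n s' hs'.1.le x hx) ⟨hs'.1, hs'.2.trans ht.2⟩
      ((h.contDiff hs2).of_le (by exact_mod_cast le_top)) (fun x => h.divfree s hs2 x)
  -- the constant of the flux
  set M : ℝ := 2 * E + C ^ 2 / 2 * Real.exp (C * t) with hM
  have hM0 : 0 ≤ M := by positivity
  have hbd : ∀ n : ℕ, ∀ s ∈ Ioo 0 t,
      (∫ x, fderiv ℝ (densS u C ((n : ℝ) + 1) (ks m n) C) (s, x) (1, u s x)) ≤
        m * (((n : ℝ) + 1)⁻¹ * M) := by
    intro n s hs'
    have hs2 : s ∈ Icc 0 t := ⟨hs'.1.le, hs'.2.le⟩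
    have hs3 : s ∈ Ioo 0 T := ⟨hs'.1, hs'.2.trans ht.2⟩
    have hS : IsOpen (Ioo 0 T ×ˢ (univ : Set (V m))) := isOpen_Ioo.prod isOpen_univ
    have hi1 : Integrable fun x =>
        fderiv ℝ (densS u C ((n : ℝ) + 1) (ks m n) C) (s, x) (1, u s x) := by
      have hfc : ContinuousOn (fderiv ℝ (densS u C ((n : ℝ) + 1) (ks m n) C))
          (Ioo 0 T ×ˢ univ) :=
        ((densS_contDiffOn h C _ (ks_pos m n) C).mono (prod_mono Ioo_subset_Ico_self
          subset_rfl)).continuousOn_fderiv_of_isOpen hS le_rfl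
      have hfs : Continuous fun x => fderiv ℝ (densS u C ((n : ℝ) + 1) (ks m n) C) (s, x) := by
        rw [← continuousOn_univ]
        exact hfc.comp (by fun_prop) fun x _ => ⟨hs3, mem_univ _⟩
      refine (hfs.clm_apply (continuous_const.prodMk
        (h.contDiff (hsub hs2)).continuous)).integrable_of_hasCompactSupport ?_
      refine HasCompactSupport.intro (isCompact_closedBall (0 : V m) (((n : ℝ) + 1) ^ 2))
        fun x hx => ?_
      have : densS u C ((n : ℝ) + 1) (ks m n) C =ᶠ[𝓝 (s, x)] fun _ => 0 := by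
        filter_upwards [(isOpen_Ioo.prod (isCompact_closedBall (0 : V m)
          (((n : ℝ) + 1) ^ 2)).isClosed.isOpen_compl).mem_nhds ⟨hs3, hx⟩] with q hq
        exact hcs n q.1 hq.1.1.le q.2 hq.2
      rw [this.fderiv_eq]
      simp
    have hi2 : Integrable fun x => (m : ℝ) *
        (chp C ((n : ℝ) + 1) (s, x) * sg (ks m n) C (s, x) * uom (u s) x) := by
      refine Integrable.const_mul ?_ _
      refine Continuous.integrable_of_hasCompactSupport ?_ ?_
      · exact (((chp_contDiff C _).continuous.comp (by fun_prop)).mul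
          ((sg_contDiff (ks_pos m n) C).continuous.comp (by fun_prop))).mul
          (continuous_uom (h.contDiff (hsub hs2)))
      · exact HasCompactSupport.intro (isCompact_closedBall (0 : V m) (((n : ℝ) + 1) ^ 2))
          fun x hx => by
            rw [chp_compact hC0 (hpos n) (q := (s, x)) hs2.1 hx, zero_mul, zero_mul]
    calc (∫ x, fderiv ℝ (densS u C ((n : ℝ) + 1) (ks m n) C) (s, x) (1, u s x))
        ≤ ∫ x, (m : ℝ) * (chp C ((n : ℝ) + 1) (s, x) * sg (ks m n) C (s, x) * uom (u s) x) := by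
          refine integral_mono_ae hi1 hi2 ?_
          filter_upwards [ae_rad_pos hm1] with x hx
          exact densS_line hm h hax hrf hs (hpos n) (ks_pos m n) hs3 (fun x => (hC s hs2 x).1)
            (fun x => (hC s hs2 x).2) hx
      _ ≤ _ := by
          rw [integral_const_mul]
          refine mul_le_mul_of_nonneg_left ?_ (Nat.cast_nonneg m)
          refine (uom_sg_integral_le (h.contDiff (hsub hs2)) (h.divfree s (hsub hs2)) (hwi s hs2)
            (hwE s hs2) hC0 (hpos n) (ks_pos m n)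
            (last_le h (hsub hs2) (fun x => (hC s hs2 x).2) (hrf s (hsub hs2))) hs2.1).trans ?_
          have h1 := ks_le m n
          have h2 : √(kap (ks m n) C s) = √(ks m n) * Real.exp (C * s) := by
            unfold kap
            rw [Real.sqrt_mul (ks_pos m n).le]
            congr 1
            have : Real.exp (2 * C * s) = Real.exp (C * s) ^ 2 := by
              rw [← Real.exp_nat_mul]
              congr 1
              push_cast
              ring
            rw [this, Real.sqrt_sq (Real.exp_pos _).le]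
          have h3 : Real.exp (C * s) ≤ Real.exp (C * t) := by
            rw [Real.exp_le_exp]
            exact mul_le_mul_of_nonneg_left hs2.2 hC0
          rw [h2, hM]
          set w := (volume : Measure (V m)).real (Metric.closedBall 0 (((n : ℝ) + 1) ^ 2)) with hw
          have hw0 : 0 ≤ w := measureReal_nonneg
          have hn0 : 0 ≤ ((n : ℝ) + 1)⁻¹ := by positivity
          calc ((n : ℝ) + 1)⁻¹ * (2 * E) + C ^ 2 / 2 * (√(ks m n) * Real.exp (C * s)) * w =
                ((n : ℝ) + 1)⁻¹ * (2 * E) + C ^ 2 / 2 * Real.exp (C * s) * (√(ks m n) * w) := by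
                ring
            _ ≤ ((n : ℝ) + 1)⁻¹ * (2 * E) + C ^ 2 / 2 * Real.exp (C * t) * ((n : ℝ) + 1)⁻¹ := by
                gcongr
            _ = _ := by ring
  have hanti : ∀ n : ℕ, ∫ x, densS u C ((n : ℝ) + 1) (ks m n) C (t, x) ≤
      (∫ x, densS u C ((n : ℝ) + 1) (ks m n) C (0, x)) + m * (((n : ℝ) + 1)⁻¹ * M) * t := by
    intro n
    have := antitoneOn_of_deriv_nonpos
      (f := fun s => (∫ x, densS u C ((n : ℝ) + 1) (ks m n) C (s, x)) -
        m * (((n : ℝ) + 1)⁻¹ * M) * s) (convex_Icc 0 t)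
      ((hcont n).sub (by fun_prop))
      (by
        rw [interior_Icc]
        intro s hs'
        have h1 := (hder n s hs').differentiableAt
        exact (h1.sub (by fun_prop)).differentiableWithinAt)
      (by
        rw [interior_Icc]
        intro s hs'
        have h1 := (hder n s hs').fun_sub ((hasDerivAt_id s).const_mul
          ((m : ℝ) * (((n : ℝ) + 1)⁻¹ * M)))
        have h2 : deriv (fun s => (∫ x, densS u C ((n : ℝ) + 1) (ks m n) C (s, x)) -
            m * (((n : ℝ) + 1)⁻¹ * M) * s) s = _ := h1.deriv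
        rw [h2]
        have := hbd n s hs'
        linarith)
    have h3 := this ⟨le_rfl, h0.le⟩ ⟨h0.le, le_rfl⟩ h0.le
    simp only at h3
    linarith
  have hint : ∀ n : ℕ, ∀ s ∈ Ico 0 T,
      Integrable fun x => densS u C ((n : ℝ) + 1) (ks m n) C (s, x) := by
    intro n s hs'
    refine Continuous.integrable_of_hasCompactSupport ?_
      (HasCompactSupport.intro (isCompact_closedBall (0 : V m) (((n : ℝ) + 1) ^ 2))
        fun x hx => hcs n s hs'.1 x hx)
    rw [← continuousOn_univ]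
    exact (densS_contDiffOn h C _ (ks_pos m n) C).continuousOn.comp (by fun_prop)
      fun x _ => ⟨hs', mem_univ _⟩
  have hnn : ∀ n : ℕ, ∀ s ∈ Ico 0 T, ∀ x, 0 ≤ densS u C ((n : ℝ) + 1) (ks m n) C (s, x) :=
    fun n s hs' x => densS_nonneg hm h hax hrf hs _ _ (ks_pos m n) C hs' x
  have hlint : ∀ n : ℕ, ∀ s ∈ Ico 0 T,
      ∫⁻ x, ENNReal.ofReal (densS u C ((n : ℝ) + 1) (ks m n) C (s, x)) =
      ENNReal.ofReal (∫ x, densS u C ((n : ℝ) + 1) (ks m n) C (s, x)) := fun n s hs' =>
    (ofReal_integral_eq_lintegral_ofReal (hint n s hs')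
      (Eventually.of_forall fun x => hnn n s hs' x)).symm
  have hlim0 : Tendsto (fun n : ℕ => (∫⁻ x : V m, ENNReal.ofReal |rom (u 0) x|) +
      ENNReal.ofReal (m * (((n : ℝ) + 1)⁻¹ * M) * t)) atTop
      (𝓝 ((∫⁻ x : V m, ENNReal.ofReal |rom (u 0) x|) + 0)) := by
    refine Tendsto.const_add _ ?_
    have h1 : Tendsto (fun n : ℕ => ((n : ℝ) + 1)⁻¹) atTop (𝓝 0) := by
      simpa [one_div] using tendsto_one_div_add_atTop_nhds_zero_nat (𝕜 := ℝ)
    have h2 := (((h1.mul_const M).const_mul (m : ℝ)).mul_const t)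
    have h3 := ENNReal.continuous_ofReal.continuousAt.tendsto.comp h2
    simpa [Function.comp_def] using h3
  -- the limit
  have hlimt : ∀ x : V m, Tendsto (fun n : ℕ =>
      ENNReal.ofReal (densS u C ((n : ℝ) + 1) (ks m n) C (t, x))) atTop
      (𝓝 (ENNReal.ofReal |rom (u t) x|)) := by
    intro x
    refine (ENNReal.continuous_ofReal.tendsto _).comp ?_
    unfold densS
    rcases eq_or_ne (ax x) 0 with hx | hx
    · have h1 := rom_plane hm1 (h.contDiff ht) (hax t ht) (hrf t ht) hx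
      simp only [h1, zero_mul, abs_zero]
      exact tendsto_const_nhds
    · have h1 := (chp_tendsto C (t, x)).mul (sg_tendsto (ks_tendsto m) C (q := (t, x)) hx)
      have h2 := h1.const_mul (rom (u t) x)
      have h3 : rom (u t) x * (1 * (ax x / |ax x|)) = |rom (u t) x| := by
        have h4 := rom_mul_nonneg hm h hax hrf hs ht x
        have h5 : 0 < |ax x| := abs_pos.2 hx
        rw [one_mul, ← mul_div_assoc, div_eq_iff h5.ne', ← abs_mul, abs_of_nonneg h4]
      rw [← h3]
      exact h2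
  calc ∫⁻ x : V m, ENNReal.ofReal |rom (u t) x|
      ≤ ∫⁻ x : V m, liminf (fun n : ℕ =>
          ENNReal.ofReal (densS u C ((n : ℝ) + 1) (ks m n) C (t, x))) atTop :=
        lintegral_mono fun x => (hlimt x).liminf_eq.ge
    _ ≤ liminf (fun n : ℕ => ∫⁻ x : V m,
          ENNReal.ofReal (densS u C ((n : ℝ) + 1) (ks m n) C (t, x))) atTop := by
        refine lintegral_liminf_le' fun n => ?_
        exact (hint n t ht).aestronglyMeasurable.aemeasurable.ennreal_ofReal
    _ ≤ liminf (fun n : ℕ => (∫⁻ x : V m, ENNReal.ofReal |rom (u 0) x|) +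
          ENNReal.ofReal (m * (((n : ℝ) + 1)⁻¹ * M) * t)) atTop := by
        refine liminf_le_liminf (Eventually.of_forall fun n => ?_)
        rw [hlint n t ht]
        refine (ENNReal.ofReal_le_ofReal (hanti n)).trans ?_
        refine ENNReal.ofReal_add_le.trans ?_
        rw [← hlint n 0 h0T]
        refine add_le_add_left (lintegral_mono fun x => ENNReal.ofReal_le_ofReal ?_) _
        exact densS_le u _ _ (ks_pos m n) C (0, x)
    _ = _ := by rw [hlim0.liminf_eq, add_zero]

end Pool.Agent.Lib.MP_c167ed_anC
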