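import Pool.Agent.Lib.MP_c167ed_anC.Sg

/-!
# MP_c167ed_an, separating data: the integral of `r |ω|` does not increase
-/

open MeasureTheory Set Filter Topology
open scoped ContDiff ENNReal NNReal

namespace Pool.Agent.Lib.MP_c167ed_anC

open Pool.Agent.Lib.MP_c167ed_an

variable {m : ℕ} {T : ℝ} {u : ℝ → V m → V m} {p : ℝ → V m → ℝ}

/-- the density `r ω χ sg` -/
noncomputable def densS (u : ℝ → V m → V m) (U R κ L : ℝ) (q : ℝ × V m) : ℝ :=
  rom (u q.1) q.2 * (chp U R q * sg κ L q)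

theorem densS_contDiffOn (h : EulerSolution m T u p) (U R : ℝ) {κ : ℝ} (hκ : 0 < κ) (L : ℝ) :
    ContDiffOn ℝ 1 (densS u U R κ L) (Ico 0 T ×ˢ univ) :=
  ((rom_contDiffOn h).of_le (by exact_mod_cast le_top)).mul
    ((chp_contDiff U R).mul (sg_contDiff hκ L)).contDiffOn

theorem rom_axis {v : V m → V m} {x : V m} (hx : rad x = 0) : rom v x = 0 := by
  unfold rom
  refine Finset.sum_eq_zero fun i _ => ?_
  rw [castSucc_eq_zero_of_rad hx, zero_mul]

/-- `z (r ω) ≥ 0` -/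
theorem rom_mul_nonneg (hm : 2 ≤ m) (h : EulerSolution m T u p)
    (hax : ∀ t ∈ Ico 0 T, AxisymNoSwirl (u t)) (hrf : ∀ t ∈ Ico 0 T, ReflSym (u t))
    (hs : ∀ r, 0 < r → ∀ z, 0 < z → 0 ≤ om (u 0) r z)
    {t : ℝ} (ht : t ∈ Ico 0 T) (x : V m) : 0 ≤ rom (u t) x * ax x := by
  rcases (rad_nonneg x).eq_or_lt with hr | hr
  · rw [rom_axis hr.symm, zero_mul]
  · rw [rom_eq (by omega) (h.contDiff ht) (hax t ht) hr, mul_assoc]
    exact mul_nonneg hr.le (om_mul_nonneg hm h hax hrf hs ht hr _)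

/-- `r ω = 0` on the plane `z = 0` -/
theorem rom_plane (hm : 1 ≤ m) {v : V m → V m} (hC : ContDiff ℝ ∞ v) (ha : AxisymNoSwirl v)
    (hv : ReflSym v) {x : V m} (hx : ax x = 0) : rom v x = 0 := by
  rcases (rad_nonneg x).eq_or_lt with hr | hr
  · exact rom_axis hr.symm
  · rw [rom_eq hm hC ha hr, hx, om_zero hm hv, mul_zero]

/-- `r |ω| = |r ω|` -/
theorem rad_mul_curl_abs (hm : 1 ≤ m) {v : V m → V m} (hC : ContDiff ℝ ∞ v)
    (ha : AxisymNoSwirl v) (x : V m) : rad x * curl v x = |rom v x| := by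
  rcases (rad_nonneg x).eq_or_lt with hr | hr
  · rw [rom_axis hr.symm, ← hr, zero_mul, abs_zero]
  · rw [rom_eq hm hC ha hr, curl_eq_abs_om hm hC ha hr, abs_mul, abs_of_pos hr]

theorem mul_nonneg_of_sign {a b z : ℝ} (h1 : 0 ≤ a * z) (h2 : 0 ≤ z * b) (h0 : z = 0 → a = 0) :
    0 ≤ a * b := by
  rcases eq_or_ne z 0 with hz | hz
  · rw [h0 hz, zero_mul]
  · have h3 : 0 ≤ (a * b) * (z * z) := by
      calc 0 ≤ (a * z) * (z * b) := mul_nonneg h1 h2
        _ = (a * b) * (z * z) := by ring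
    have h4 : 0 < z * z := mul_self_pos.2 hz
    exact nonneg_of_mul_nonneg_left h3 h4

theorem densS_nonneg (hm : 2 ≤ m) (h : EulerSolution m T u p)
    (hax : ∀ t ∈ Ico 0 T, AxisymNoSwirl (u t)) (hrf : ∀ t ∈ Ico 0 T, ReflSym (u t))
    (hs : ∀ r, 0 < r → ∀ z, 0 < z → 0 ≤ om (u 0) r z) (U R : ℝ) {κ : ℝ} (hκ : 0 < κ) (L : ℝ)
    {t : ℝ} (ht : t ∈ Ico 0 T) (x : V m) : 0 ≤ densS u U R κ L (t, x) := by
  have h1 : 0 ≤ rom (u t) x * sg κ L (t, x) :=
    mul_nonneg_of_sign (rom_mul_nonneg hm h hax hrf hs ht x) (mul_sg_nonneg hκ L (t, x))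
      (fun hx => rom_plane (by omega) (h.contDiff ht) (hax t ht) (hrf t ht) hx)
  have h2 := mul_nonneg h1 (chp_nonneg U R (t, x))
  unfold densS
  calc 0 ≤ rom (u t) x * sg κ L (t, x) * chp U R (t, x) := h2
    _ = _ := by ring

theorem densS_le (u : ℝ → V m → V m) (U R : ℝ) {κ : ℝ} (hκ : 0 < κ) (L : ℝ) (q : ℝ × V m) :
    densS u U R κ L q ≤ |rom (u q.1) q.2| := by
  unfold densS
  refine (le_abs_self _).trans ?_
  rw [abs_mul, abs_mul, abs_of_nonneg (chp_nonneg U R q)]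
  refine mul_le_of_le_one_right (abs_nonneg _) ?_
  exact mul_le_one₀ (chp_le_one U R q) (abs_nonneg _) (abs_sg_le hκ L q)

theorem densS_line (hm : 2 ≤ m) (h : EulerSolution m T u p)
    (hax : ∀ t ∈ Ico 0 T, AxisymNoSwirl (u t)) (hrf : ∀ t ∈ Ico 0 T, ReflSym (u t))
    (hs : ∀ r, 0 < r → ∀ z, 0 < z → 0 ≤ om (u 0) r z)
    {U R κ L : ℝ} (hR : 0 < R) (hκ : 0 < κ) {t : ℝ} (ht : t ∈ Ioo 0 T)
    (hU : ∀ x, ‖u t x‖ ≤ U) (hL : ∀ x, ‖fderiv ℝ (u t) x‖ ≤ L) {x : V m} (hx : 0 < rad x) :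
    fderiv ℝ (densS u U R κ L) (t, x) (1, u t x) ≤
      m * (chp U R (t, x) * sg κ L (t, x) * uom (u t) x) := by
  have ht0 : t ∈ Ico 0 T := ⟨ht.1.le, ht.2⟩
  obtain ⟨D, hD, h2⟩ := chp_deriv (U := U) (R := R) hR (t := t) (x := x) (w := u t x) (hU x)
  obtain ⟨D', hD', h3⟩ := sg_deriv hκ (t := t) (x := x) (w := u t x)
    (last_le h ht0 hL (hrf t ht0) x)
  have h1 := rom_line hm h hax ht hx
  have h4 := h1.fun_mul (h2.fun_mul h3)
  have h5 : HasFDerivAt (densS u U R κ L) (fderiv ℝ (densS u U R κ L) (t, x)) (t, x) :=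
    (((densS_contDiffOn h U R hκ L).contDiffAt (prod_mem_nhds (Ico_mem_nhds ht.1 ht.2)
      univ_mem)).differentiableAt (by norm_num)).hasFDerivAt
  have hl : HasDerivAt (fun s : ℝ => (t + s, x + s • u t x)) (1, u t x) 0 := by
    refine ((hasDerivAt_id (0 : ℝ)).const_add t).prodMk ?_
    simpa using ((hasDerivAt_id (0 : ℝ)).smul_const (u t x)).const_add x
  have h6 := h5.comp_hasDerivAt_of_eq 0 hl (by simp)
  have h7 := h6.unique h4
  rw [h7]
  simp only [add_zero, zero_smul]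
  have hz := rom_mul_nonneg hm h hax hrf hs ht0 x
  have hp0 : ax x = 0 → rom (u t) x = 0 := fun hx =>
    rom_plane (by omega) (h.contDiff ht0) (hax t ht0) (hrf t ht0) hx
  have h8 : 0 ≤ rom (u t) x * sg κ L (t, x) :=
    mul_nonneg_of_sign hz (mul_sg_nonneg hκ L (t, x)) hp0
  have h9 : 0 ≤ rom (u t) x * (-D') :=
    mul_nonneg_of_sign hz (by linarith : 0 ≤ ax x * (-D')) hp0
  have h10 := mul_nonpos_of_nonneg_of_nonpos h8 hD
  have h11 := mul_nonneg h9 (chp_nonneg U R (t, x))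
  nlinarith

/-- the flux integral -/
theorem uom_sg_integral_le {v : V m → V m} (hC : ContDiff ℝ ∞ v) (hd : ∀ x, dvg v x = 0)
    {E : ℝ} (hi : Integrable fun x => ‖v x‖ ^ 2) (hE : ∫ x, ‖v x‖ ^ 2 ≤ E) {U R κ L : ℝ}
    (hU : 0 ≤ U) (hR : 0 < R) (hκ : 0 < κ) (hL : ∀ x, |v x (Fin.last m)| ≤ L * |ax x|)
    {t : ℝ} (ht : 0 ≤ t) :
    ∫ x, chp U R (t, x) * sg κ L (t, x) * uom v x ≤ R⁻¹ * (2 * E) +
      L ^ 2 / 2 * √(kap κ L t) * (volume : Measure (V m)).real (Metric.closedBall 0 (R ^ 2)) := by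
  set B : Set (V m) := Metric.closedBall (0 : V m) (R ^ 2) with hB
  set c : ℝ := L ^ 2 / 2 * √(kap κ L t) with hc
  have hc0 : 0 ≤ c := by positivity
  have hφ1 : ContDiff ℝ 1 (fun y : V m => chp U R (t, y)) :=
    (chp_contDiff U R).comp (contDiff_prodMk_right t)
  have hφ2 : ContDiff ℝ 1 (fun y : V m => sg κ L (t, y)) :=
    (sg_contDiff hκ L).comp (contDiff_prodMk_right t)
  have hφ : ContDiff ℝ 1 (fun y : V m => chp U R (t, y) * sg κ L (t, y)) := hφ1.mul hφ2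
  have hcs : HasCompactSupport (fun y : V m => chp U R (t, y) * sg κ L (t, y)) :=
    HasCompactSupport.intro (isCompact_closedBall (0 : V m) (R ^ 2))
      fun x hx => by rw [chp_compact hU hR (q := (t, x)) ht hx, zero_mul]
  have h1 : ∀ x, chp U R (t, x) * sg κ L (t, x) * uom v x =
      chp U R (t, x) * sg κ L (t, x) * dvg (Jf v) x := fun x => by
    rw [dvg_Jf hC (hd x)]
  simp only [h1]
  rw [integral_mul_dvg hφ hcs (Jf_contDiff hC), ← integral_neg]
  have hBm : MeasurableSet B := Metric.isClosed_closedBall.measurableSet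
  have hi1 : Integrable (fun x => R⁻¹ * (2 * ‖v x‖ ^ 2)) := (hi.const_mul 2).const_mul _
  have hi2 : Integrable (B.indicator fun _ => c) :=
    (integrable_indicator_iff hBm).2 (integrableOn_const (measure_closedBall_lt_top.ne))
  have hi3 : Integrable (fun x => -(fderiv ℝ (fun y : V m => chp U R (t, y) * sg κ L (t, y)) x
      (Jf v x))) := by
    refine Integrable.neg ?_
    refine Continuous.integrable_of_hasCompactSupport ?_ ?_
    · exact (hφ.continuous_fderiv (by norm_num)).clm_apply (Jf_contDiff hC).continuous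
    · have h2 := hcs.fderiv (𝕜 := ℝ)
      refine HasCompactSupport.intro h2 fun x hx => ?_
      rw [image_eq_zero_of_notMem_tsupport hx]
      simp
  have hpt : ∀ x, -(fderiv ℝ (fun y : V m => chp U R (t, y) * sg κ L (t, y)) x (Jf v x)) ≤
      R⁻¹ * (2 * ‖v x‖ ^ 2) + B.indicator (fun _ => c) x := by
    intro x
    have hd1 : HasFDerivAt (fun y : V m => chp U R (t, y))
        (fderiv ℝ (fun y : V m => chp U R (t, y)) x) x :=
      (hφ1.differentiable (by norm_num) x).hasFDerivAt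
    have hd2 : HasFDerivAt (fun y : V m => sg κ L (t, y))
        (fderiv ℝ (fun y : V m => sg κ L (t, y)) x) x :=
      (hφ2.differentiable (by norm_num) x).hasFDerivAt
    have hd3 := (hd1.mul hd2).fderiv
    have hd4 : fderiv ℝ (fun y : V m => chp U R (t, y) * sg κ L (t, y)) x =
        chp U R (t, x) • fderiv ℝ (fun y : V m => sg κ L (t, y)) x +
          sg κ L (t, x) • fderiv ℝ (fun y : V m => chp U R (t, y)) x := hd3
    rw [hd4]
    simp only [_root_.add_apply, _root_.smul_apply, smul_eq_mul]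
    have e1 := sg_flux hκ t (v := v) (x := x) (hL x)
    rw [← hc] at e1
    have e2 : -(sg κ L (t, x) * fderiv ℝ (fun y : V m => chp U R (t, y)) x (Jf v x)) ≤
        R⁻¹ * (2 * ‖v x‖ ^ 2) := by
      refine (neg_le_abs _).trans ?_
      rw [abs_mul]
      calc |sg κ L (t, x)| * |fderiv ℝ (fun y : V m => chp U R (t, y)) x (Jf v x)| ≤
            1 * |fderiv ℝ (fun y : V m => chp U R (t, y)) x (Jf v x)| :=
            mul_le_mul_of_nonneg_right (abs_sg_le hκ L (t, x)) (abs_nonneg _)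
        _ = |fderiv ℝ (fun y : V m => chp U R (t, y)) x (Jf v x)| := one_mul _
        _ ≤ R⁻¹ * ‖Jf v x‖ := chp_grad hR t x _
        _ ≤ R⁻¹ * (2 * ‖v x‖ ^ 2) := mul_le_mul_of_nonneg_left (norm_Jf_le v x) (by positivity)
    have e3 : -(chp U R (t, x) * fderiv ℝ (fun y : V m => sg κ L (t, y)) x (Jf v x)) ≤
        B.indicator (fun _ => c) x := by
      by_cases hx : x ∈ B
      · rw [indicator_of_mem hx]
        calc -(chp U R (t, x) * fderiv ℝ (fun y : V m => sg κ L (t, y)) x (Jf v x)) =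
              chp U R (t, x) * -(fderiv ℝ (fun y : V m => sg κ L (t, y)) x (Jf v x)) := by ring
          _ ≤ chp U R (t, x) * c := mul_le_mul_of_nonneg_left e1 (chp_nonneg _ _ _)
          _ ≤ 1 * c := mul_le_mul_of_nonneg_right (chp_le_one _ _ _) hc0
          _ = c := one_mul c
      · rw [indicator_of_notMem hx, chp_compact hU hR (q := (t, x)) ht hx, zero_mul, neg_zero]
    linarith
  calc ∫ x, -(fderiv ℝ (fun y : V m => chp U R (t, y) * sg κ L (t, y)) x (Jf v x))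
      ≤ ∫ x, (R⁻¹ * (2 * ‖v x‖ ^ 2) + B.indicator (fun _ => c) x) :=
        integral_mono hi3 (hi1.add hi2) hpt
    _ = (∫ x, R⁻¹ * (2 * ‖v x‖ ^ 2)) + ∫ x, B.indicator (fun _ => c) x := integral_add hi1 hi2
    _ = R⁻¹ * (2 * ∫ x, ‖v x‖ ^ 2) + c * (volume : Measure (V m)).real B := by
        rw [integral_const_mul, integral_const_mul, integral_indicator hBm, setIntegral_const,
          smul_eq_mul, mul_comm c]
    _ ≤ _ := by
        have : 0 < R⁻¹ := by positivity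
        gcongr

end Pool.Agent.Lib.MP_c167ed_anC
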