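import Pool.Agent.Lib.MP_c167ed_an.AbsFar

/-!
# MP_c167ed_an: lower bound of the blow-up rate (`d ≥ 7`), abstract part
-/

open MeasureTheory Set Filter Topology
open scoped ContDiff ENNReal NNReal

namespace Pool.Agent.Lib.MP_c167ed_anC

open Pool.Agent.Lib.MP_c167ed_an

variable {m : ℕ} {T : ℝ} {a w : ℝ → ℝ → ℝ → ℝ} {K W A0 C1 : ℝ}

/-- the exponent `γ = (d+2)/4` -/
noncomputable def gam (m : ℕ) : ℝ := ((m : ℝ) + 3) / 4

theorem gam_one_lt {m : ℕ} (hm : 6 ≤ m) : 1 < gam m := by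
  have : (6 : ℝ) ≤ m := by exact_mod_cast hm
  unfold gam
  linarith

/-- the growth rate of `ρ^γ` -/
theorem rate_aux6 (hm : 6 ≤ m) {C2 η ρ N b : ℝ} (hη : 0 < η) (hρ : η ≤ ρ) (hN : 1 ≤ N)
    (hb : ∀ δ : ℝ, 0 < δ → δ ≤ ρ / 2 → b ≤ C2 * (1 / (δ * √(ρ ^ (m - 1))) + δ * N ^ 2)) :
    b * gam m * ρ ^ (gam m - 1) ≤ gam m * C2 * (2 / η ^ gam m + η ^ gam m / 2) * N := by
  have hρ0 : 0 < ρ := hη.trans_le hρ
  have hN0 : 0 < N := one_pos.trans_le hN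
  have hγ := gam_one_lt hm
  have hγ0 : 0 < gam m := by linarith
  set y : ℝ := ρ ^ (gam m - 1) with hy
  have hy0 : 0 < y := Real.rpow_pos_of_pos hρ0 _
  set e : ℝ := η ^ gam m with he
  have he0 : 0 < e := Real.rpow_pos_of_pos hη _
  have hsq : √(ρ ^ (m - 1)) = y ^ 2 := by
    have h1 : ρ ^ (m - 1) = (y ^ 2) ^ 2 := by
      have h2 : (y ^ 2) ^ 2 = y ^ ((4 : ℕ) : ℝ) := by
        rw [Real.rpow_natCast]
        ring
      rw [h2, hy, ← Real.rpow_mul hρ0.le, ← Real.rpow_natCast ρ (m - 1)]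
      congr 1
      unfold gam
      rw [Nat.cast_sub (by omega)]
      push_cast
      ring
    rw [h1, Real.sqrt_sq (by positivity)]
  have hey : e ≤ ρ * y := by
    have h1 : e ≤ ρ ^ gam m := Real.rpow_le_rpow hη.le hρ hγ0.le
    have h2 : ρ * y = ρ ^ gam m := by
      rw [hy]
      nth_rewrite 1 [← Real.rpow_one ρ]
      rw [← Real.rpow_add hρ0]
      congr 1
      ring
    rw [h2]; exact h1
  have hδ0 : 0 < e / (2 * N * y) := by positivity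
  have hδ1 : e / (2 * N * y) ≤ ρ / 2 := by
    rw [div_le_div_iff₀ (by positivity) (by norm_num)]
    have h1 : ρ * y ≤ ρ * y * N := le_mul_of_one_le_right (by positivity) hN
    nlinarith
  have h1 := hb _ hδ0 hδ1
  rw [hsq] at h1
  have h2 : C2 * (1 / (e / (2 * N * y) * y ^ 2) + e / (2 * N * y) * N ^ 2) =
      C2 * N * (2 / e + e / 2) / y := by
    field_simp
  rw [h2, le_div_iff₀ hy0] at h1
  calc b * gam m * y = gam m * (b * y) := by ring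
    _ ≤ gam m * (C2 * N * (2 / e + e / 2)) := mul_le_mul_of_nonneg_left h1 hγ0.le
    _ = _ := by ring

/-- one piece of a trajectory -/
theorem rate_piece (hm : 6 ≤ m) {C2 η : ℝ} (hη : 0 < η)
    (far : ∀ t ∈ Ico 0 T, ∀ r, 0 < r → ∀ z δ M : ℝ, 0 < δ → δ ≤ r / 2 → 0 ≤ M →
      (∀ r', 0 < r' → ∀ z', |w t r' z'| ≤ M) →
      a t r z ≤ C2 * (1 / (δ * √(r ^ (m - 1))) + δ * M))
    {ρ ζ : ℝ → ℝ} {t s0 s1 b0 : ℝ} {N G : ℝ → ℝ} (htT : t < T) (h0 : 0 ≤ s0) (h01 : s0 ≤ s1)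
    (h1t : s1 ≤ t) (hρc : ContinuousOn ρ (Icc 0 t)) (hρpos : ∀ s ∈ Icc 0 t, 0 < ρ s)
    (hρd : ∀ s ∈ Ioo 0 t, HasDerivAt ρ (a s (ρ s) (ζ s)) s)
    (hGc : ContinuousOn G (Icc s0 s1))
    (hG : ∀ s ∈ Ioo s0 s1, HasDerivAt G
      (gam m * C2 * (2 / η ^ gam m + η ^ gam m / 2) * N s) s)
    (hN : ∀ s ∈ Ioo s0 s1, 1 ≤ N s) (hGm : MonotoneOn G (Icc s0 s1))
    (hw : ∀ s ∈ Ioo s0 s1, ∀ r', 0 < r' → ∀ z', |w s r' z'| ≤ (N s) ^ 2)
    (hb0 : η ^ gam m ≤ b0) (hb1 : (ρ s0) ^ gam m ≤ b0) :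
    (ρ s1) ^ gam m ≤ b0 + (G s1 - G s0) := by
  have hγ := gam_one_lt hm
  have hγ0 : 0 < gam m := by linarith
  refine grow_aux (X := fun s => (ρ s) ^ gam m) (c0 := η ^ gam m) h01 ?_ hGc hGm ?_ hb0 hb1
  · exact ((hρc.mono (Icc_subset_Icc h0 h1t)).rpow_const fun s hs => Or.inr hγ0.le)
  · intro s hs hXs
    have hsI : s ∈ Ioo 0 t := ⟨h0.trans_lt hs.1, hs.2.trans_le h1t⟩
    have hρs := hρpos s ⟨hsI.1.le, hsI.2.le⟩
    have hd1 : HasDerivAt (fun s => (ρ s) ^ gam m)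
        (a s (ρ s) (ζ s) * gam m * (ρ s) ^ (gam m - 1)) s :=
      (hρd s hsI).rpow_const (Or.inl hρs.ne')
    refine ⟨_, _, hd1, hG s hs, ?_⟩
    have hηρ : η ≤ ρ s := by
      by_contra hlt
      push Not at hlt
      have : (ρ s) ^ gam m < η ^ gam m := Real.rpow_lt_rpow hρs.le hlt hγ0
      exact absurd hXs (not_le.mpr this)
    exact rate_aux6 hm hη hηρ (hN s hs)
      (fun δ hδ hδ2 => far s ⟨hsI.1.le, hsI.2.trans htT⟩ (ρ s) hρs (ζ s) δ ((N s) ^ 2) hδ hδ2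
        (by positivity) (hw s hs))

/-- `θ = (d+2)/(d-6)` -/
noncomputable def tht (m : ℕ) : ℝ := ((m : ℝ) + 3) / ((m : ℝ) - 5)

/-- `β = γ/(m-1)` -/
noncomputable def bet (m : ℕ) : ℝ := ((m : ℝ) + 3) / (4 * ((m : ℝ) - 1))

/-- the rate `κ = 4 (d-2)/(d-6)` -/
noncomputable def kpp (m : ℕ) : ℝ := 4 * ((m : ℝ) - 1) / ((m : ℝ) - 5)

theorem tht_pos {m : ℕ} (hm : 6 ≤ m) : 0 < tht m := by
  have : (6 : ℝ) ≤ m := by exact_mod_cast hm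
  unfold tht
  exact div_pos (by linarith) (by linarith)

theorem bet_pos {m : ℕ} (hm : 6 ≤ m) : 0 < bet m := by
  have : (6 : ℝ) ≤ m := by exact_mod_cast hm
  unfold bet
  exact div_pos (by linarith) (by linarith)

theorem kpp_pos {m : ℕ} (hm : 6 ≤ m) : 0 < kpp m := by
  have : (6 : ℝ) ≤ m := by exact_mod_cast hm
  unfold kpp
  exact div_pos (by linarith) (by linarith)

theorem kpp_eq {m : ℕ} (hm : 6 ≤ m) : kpp m = 2 * (tht m + 1) := by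
  have : (6 : ℝ) ≤ m := by exact_mod_cast hm
  have h1 : (m : ℝ) - 5 ≠ 0 := by linarith
  unfold kpp tht
  field_simp
  ring

theorem kpp_mul_bet {m : ℕ} (hm : 6 ≤ m) : kpp m * bet m = tht m := by
  have : (6 : ℝ) ≤ m := by exact_mod_cast hm
  have h1 : (m : ℝ) - 5 ≠ 0 := by linarith
  have h2 : (m : ℝ) - 1 ≠ 0 := by linarith
  unfold kpp tht bet
  field_simp

theorem bet_mul {m : ℕ} (hm : 6 ≤ m) : ((m - 1 : ℕ) : ℝ) * bet m = gam m := by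
  have : (6 : ℝ) ≤ m := by exact_mod_cast hm
  have h2 : (m : ℝ) - 1 ≠ 0 := by linarith
  rw [Nat.cast_sub (by omega), Nat.cast_one]
  unfold gam bet
  field_simp

/-- trajectories with the constancy of `w/r^{m-1}` at all times -/
def TrajAll (m : ℕ) (T : ℝ) (a w : ℝ → ℝ → ℝ → ℝ) : Prop :=
  ∀ t ∈ Ioo 0 T, ∀ r, 0 < r → ∀ z, ∃ ρ ζ : ℝ → ℝ, ContinuousOn ρ (Icc 0 t) ∧
    (∀ s ∈ Icc 0 t, 0 < ρ s) ∧ (∀ s ∈ Ioo 0 t, HasDerivAt ρ (a s (ρ s) (ζ s)) s) ∧ ρ t = r ∧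
    ζ t = z ∧ ∀ s ∈ Icc 0 t,
      w s (ρ s) (ζ s) / (ρ s) ^ (m - 1) = w 0 (ρ 0) (ζ 0) / (ρ 0) ^ (m - 1)

end Pool.Agent.Lib.MP_c167ed_anC
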