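import Pool.Agent.Lib.MP_c167ed_anC.RateAbs

/-!
# MP_c167ed_an: lower bound of the blow-up rate (`d ≥ 7`), the bootstrap
-/

open MeasureTheory Set Filter Topology
open scoped ContDiff ENNReal NNReal

namespace Pool.Agent.Lib.MP_c167ed_anC

open Pool.Agent.Lib.MP_c167ed_an

variable {m : ℕ} {T : ℝ} {a w : ℝ → ℝ → ℝ → ℝ} {K W A0 C1 : ℝ}

/-- If the vorticity at the time `s` is small relative to the distance to `T'` then it stays below the
solution of the comparison equation up to `T'`. -/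
theorem abs_rate (hm : 6 ≤ m) (D : AbsData m T a w K W A0 C1) (htraj : TrajAll m T a w) {C2 : ℝ}
    (hC2 : 0 ≤ C2)
    (far : ∀ t ∈ Ico 0 T, ∀ r, 0 < r → ∀ z δ M : ℝ, 0 < δ → δ ≤ r / 2 → 0 ≤ M →
      (∀ r', 0 < r' → ∀ z', |w t r' z'| ≤ M) →
      a t r z ≤ C2 * (1 / (δ * √(r ^ (m - 1))) + δ * M)) :
    ∃ ε N A a0 : ℝ, 0 < ε ∧ 0 < N ∧ 0 < A ∧ 0 < a0 ∧
      (∃ μ : ℝ, 0 ≤ μ ∧ ∀ t ∈ Ico 0 T, ∀ r ∈ Ioc 0 (2 * ε), ∀ z, |w t r z| ≤ μ) ∧
      (∀ t ∈ Ico 0 T, ∀ r, ε ≤ r → ∀ z, |w t r z| ≤ N * r ^ (m - 1)) ∧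
      ∀ s ∈ Ico 0 T, ∀ T', T ≤ T' → A * (T' - s) ≤ a0 →
        (∀ r, 0 < r → ∀ z, |w s r z| ≤ ((A * (T' - s)) ^ (-(tht m)) / 4) ^ (1 / bet m)) →
        ∀ σ ∈ Ico s T, ∀ r, 0 < r → ∀ z, |w σ r z| ≤ (A * (T' - σ)) ^ (-(kpp m)) := by
  obtain ⟨ε, η', μ, hε, hε1, hη', hμ, hnear, htr⟩ := abs_near (by omega) D
  have hT : 0 < T := D.hT
  have hW : 0 ≤ W := D.hW
  have hγ := gam_one_lt hm
  have hγ0 : 0 < gam m := by linarith
  have hθ := tht_pos hm
  have hβ := bet_pos hm
  have hκ := kpp_pos hm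
  set η := min η' ε with hηdef
  have hη : 0 < η := lt_min hη' hε
  have hηle : η ≤ η' := min_le_left _ _
  set X0 : ℝ := η ^ gam m with hX0
  have hX00 : 0 < X0 := Real.rpow_pos_of_pos hη _
  set N : ℝ := W / η ^ (m - 1) + 1 with hN
  have hN0 : 0 < N := by positivity
  set ν : ℝ := N ^ bet m with hν
  have hν0 : 0 < ν := Real.rpow_pos_of_pos hN0 _
  set C' : ℝ := gam m * C2 * (2 / η ^ gam m + η ^ gam m / 2) with hC'
  have hC'0 : 0 ≤ C' := by positivity
  set A : ℝ := 4 * ν * C' / tht m + 1 with hA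
  have hA0 : 0 < A := by positivity
  -- the level of the comparison function
  set g0 : ℝ := max (4 * (ν * X0 + 1)) ((μ * (2 * ε) + 1) ^ bet m) with hg0
  have hg01 : 4 ≤ g0 := le_trans (by nlinarith [mul_pos hν0 hX00]) (le_max_left _ _)
  have hg00 : 0 < g0 := by linarith
  set a0 : ℝ := g0 ^ (-(1 / tht m)) with ha0
  have ha00 : 0 < a0 := Real.rpow_pos_of_pos hg00 _
  -- bound away from the axis
  have hfarw : ∀ t ∈ Ico 0 T, ∀ r, ε ≤ r → ∀ z, |w t r z| ≤ N * r ^ (m - 1) := by
    intro t ht r hr z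
    have hr0 : 0 < r := hε.trans_le hr
    rcases eq_or_lt_of_le ht.1 with h0 | h0
    · rw [← h0]
      refine (D.initW r hr0 z).trans ?_
      have h1 : η ^ (m - 1) ≤ r ^ (m - 1) := by
        have : η ≤ r := (min_le_right _ _).trans hr
        gcongr
      have h2 : W ≤ W / η ^ (m - 1) * r ^ (m - 1) := by
        rw [div_mul_eq_mul_div, le_div_iff₀ (by positivity)]
        gcongr
      refine h2.trans ?_
      rw [hN]
      gcongr
      linarith
    · obtain ⟨ρ, ζ, hρc, hρpos, hρd, hρt, hρw⟩ := D.traj t ⟨h0, ht.2⟩ r hr0 z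
      have hρ0 : 0 < ρ 0 := hρpos 0 ⟨le_rfl, h0.le⟩
      have hη1 : η' ≤ ρ 0 := htr t ⟨h0, ht.2⟩ ρ ζ hρc hρpos hρd (by rw [hρt]; exact hr)
      have hη2 : η ≤ ρ 0 := hηle.trans hη1
      have hweq : w t r z = w 0 (ρ 0) (ζ 0) / (ρ 0) ^ (m - 1) * r ^ (m - 1) := by
        rw [← hρw]; field_simp
      rw [hweq, abs_mul, abs_div, abs_of_pos (pow_pos hρ0 _), abs_of_pos (pow_pos hr0 _)]
      have h2 := D.initW _ hρ0 (ζ 0)
      have h3 : |w 0 (ρ 0) (ζ 0)| / ρ 0 ^ (m - 1) ≤ W / η ^ (m - 1) := by gcongr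
      refine mul_le_mul_of_nonneg_right (h3.trans ?_) (by positivity)
      rw [hN]; linarith
  refine ⟨ε, N, A, a0, hε, hN0, hA0, ha00, ⟨μ * (2 * ε), by positivity, ?_⟩, hfarw, ?_⟩
  · intro t ht r hr z
    refine (hnear t ht r hr z).trans ?_
    have := hr.2
    gcongr
  intro s hs T' hTT' hsmall hinit
  -- the comparison function
  set g : ℝ → ℝ := fun τ => (A * (T' - τ)) ^ (-(tht m)) with hg
  have harg : ∀ τ, τ < T → 0 < A * (T' - τ) := fun τ hτ => mul_pos hA0 (by linarith)
  have hg_pos : ∀ τ, τ < T → 0 < g τ := fun τ hτ => Real.rpow_pos_of_pos (harg τ hτ) _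
  have hg_mono : ∀ x y, x ≤ y → y < T → g x ≤ g y := by
    intro x y hxy hy
    simp only [hg]
    refine Real.rpow_le_rpow_of_nonpos (harg y hy) ?_ (by linarith)
    gcongr
  have hg_low : ∀ τ ∈ Ico s T, g0 ≤ g τ := by
    intro τ hτ
    refine le_trans ?_ (hg_mono s τ hτ.1 hτ.2)
    have h1 : a0 ^ (-(tht m)) ≤ g s :=
      Real.rpow_le_rpow_of_nonpos (harg s hs.2) hsmall (by linarith)
    refine le_trans (le_of_eq ?_) h1
    rw [ha0, ← Real.rpow_mul hg00.le]
    have : -(1 / tht m) * -(tht m) = 1 := by field_simp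
    rw [this, Real.rpow_one]
  -- the bound in terms of `g`
  have hkap : ∀ τ, τ < T → (A * (T' - τ)) ^ (-(kpp m)) = (g τ) ^ (1 / bet m) := by
    intro τ hτ
    simp only [hg]
    rw [← Real.rpow_mul (harg τ hτ).le]
    congr 1
    have := kpp_mul_bet hm
    field_simp
    linarith
  have hNsq : ∀ τ, τ < T → ((A * (T' - τ)) ^ (-(tht m + 1))) ^ 2 = (A * (T' - τ)) ^ (-(kpp m)) := by
    intro τ hτ
    rw [← Real.rpow_natCast, ← Real.rpow_mul (harg τ hτ).le, kpp_eq hm]
    congr 1
    push_cast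
    ring
  have hN1 : ∀ τ ∈ Ico s T, 1 ≤ (A * (T' - τ)) ^ (-(tht m + 1)) := by
    intro τ hτ
    have h1 := hg_low τ hτ
    have h2 : A * (T' - τ) ≤ 1 := by
      by_contra hcon
      push Not at hcon
      have h3 : g τ ≤ 1 := Real.rpow_le_one_of_one_le_of_nonpos hcon.le (by linarith)
      linarith
    exact Real.one_le_rpow_of_pos_of_le_one_of_nonpos (harg τ hτ.2) h2 (by linarith)
  -- derivative of the comparison function
  have hGd : ∀ τ, τ < T → HasDerivAt (fun τ => C' / (tht m * A) * g τ)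
      (C' * (A * (T' - τ)) ^ (-(tht m + 1))) τ := by
    intro τ hτ
    have h1 : HasDerivAt (fun τ => A * (T' - τ)) (-A) τ := by
      have := ((hasDerivAt_id τ).const_sub T').const_mul A
      simpa using this
    have h2 := (h1.rpow_const (p := -(tht m)) (Or.inl (harg τ hτ).ne')).const_mul
      (C' / (tht m * A))
    refine h2.congr_deriv ?_
    have h3 : -(tht m) - 1 = -(tht m + 1) := by ring
    rw [h3]
    field_simp
  have hAν : ν * (C' / (tht m * A)) ≤ 1 / 4 := by
    rw [← mul_div_assoc, div_le_iff₀ (by positivity)]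
    have h1 : tht m * A = 4 * ν * C' + tht m := by
      rw [hA]
      field_simp
    rw [h1]
    nlinarith
  -- bootstrap
  have hboot : ∀ σ ∈ Ico 0 T, s ≤ σ → ∀ r, 0 < r → ∀ z, |w σ r z| ≤ (A * (T' - σ)) ^ (-(kpp m)) := by
    apply bootstrap
    intro τ hτ hP
    obtain ⟨C, hC⟩ := D.loc ((τ + T) / 2) (by linarith [hτ.2])
    set c1 := |C| + 1 with hc1
    have hc1C : 1 ≤ c1 := by have := abs_nonneg C; linarith
    have hc1sq : C ≤ c1 ^ 2 := by
      have h1 := le_abs_self C
      have h2 := abs_nonneg C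
      nlinarith
    refine ⟨min ((T - τ) / 2) (1 / (ν * (C' * c1) + 1)), lt_min (by linarith [hτ.2])
      (by positivity), ?_⟩
    intro σ hσ hσT hsσ r hr z
    have hσ1 : σ ≤ (τ + T) / 2 := by
      have := hσ.2.trans (add_le_add_right (min_le_left _ _) τ)
      linarith
    have hσ2 : σ - τ ≤ 1 / (ν * (C' * c1) + 1) := by
      have := hσ.2.trans (add_le_add_right (min_le_right _ _) τ)
      linarith
    have hσ0 : 0 ≤ σ := hτ.1.trans hσ.1
    have hglow := hg_low σ ⟨hsσ, hσT⟩
    have hgσ := hg_pos σ hσT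
    rw [hkap σ hσT]
    rcases lt_or_ge r ε with hrε | hrε
    · -- near the axis
      have h1 := hnear σ ⟨hσ0, hσT⟩ r ⟨hr, by linarith⟩ z
      have h2 : μ * r ≤ μ * (2 * ε) := by
        have : r ≤ 2 * ε := by linarith
        gcongr
      have h3 : (μ * (2 * ε) + 1) ^ bet m ≤ g σ := (le_max_right _ _).trans hglow
      have h4 : 0 ≤ μ * (2 * ε) := by positivity
      have h5 : μ * (2 * ε) + 1 ≤ (g σ) ^ (1 / bet m) := by
        calc μ * (2 * ε) + 1 = ((μ * (2 * ε) + 1) ^ bet m) ^ (1 / bet m) := by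
              rw [← Real.rpow_mul (by linarith), mul_one_div_cancel hβ.ne', Real.rpow_one]
          _ ≤ _ := Real.rpow_le_rpow (by positivity) h3 (by positivity)
      linarith
    · rcases eq_or_lt_of_le hsσ with h0 | h0
      · -- time s
        rw [← h0]
        refine (hinit r hr z).trans ?_
        have h1 := hg_pos s hs.2
        refine Real.rpow_le_rpow (by positivity) ?_ (by positivity)
        simp only [hg] at h1 ⊢
        linarith
      · have hσ00 : 0 < σ := hs.1.trans_lt h0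
        obtain ⟨ρ, ζ, hρc, hρpos, hρd, hρt, hζt, hρw⟩ := htraj σ ⟨hσ00, hσT⟩ r hr z
        have h00 : (0 : ℝ) ∈ Icc 0 σ := ⟨le_rfl, hσ00.le⟩
        have hsI : s ∈ Icc 0 σ := ⟨hs.1, h0.le⟩
        have hρ0 : 0 < ρ 0 := hρpos 0 h00
        have hρs : 0 < ρ s := hρpos s hsI
        have hη0 : η ≤ ρ 0 := hηle.trans (htr σ ⟨hσ00, hσT⟩ ρ ζ hρc hρpos hρd (by rw [hρt]; exact hrε))
        -- the relative vorticity
        set ξ : ℝ := |w 0 (ρ 0) (ζ 0) / (ρ 0) ^ (m - 1)| with hξ
        have hξ0 : 0 ≤ ξ := abs_nonneg _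
        have hξN : ξ ≤ N := by
          rw [hξ, abs_div, abs_of_pos (pow_pos hρ0 _)]
          have h2 := D.initW _ hρ0 (ζ 0)
          have h3 : |w 0 (ρ 0) (ζ 0)| / ρ 0 ^ (m - 1) ≤ W / η ^ (m - 1) := by gcongr
          rw [hN]; linarith
        have hws : |w s (ρ s) (ζ s)| = ξ * (ρ s) ^ (m - 1) := by
          have h1 := hρw s hsI
          rw [div_eq_iff (pow_pos hρs _).ne'] at h1
          rw [h1, abs_mul, abs_of_pos (pow_pos hρs _)]
        have hwσ : |w σ r z| = ξ * r ^ (m - 1) := by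
          have h1 := hρw σ ⟨hσ00.le, le_rfl⟩
          rw [hρt, hζt, div_eq_iff (pow_pos hr _).ne'] at h1
          rw [h1, abs_mul, abs_of_pos (pow_pos hr _)]
        have hpow : ∀ x : ℝ, 0 < x → (ξ * x ^ (m - 1)) ^ bet m = ξ ^ bet m * x ^ gam m := by
          intro x hx
          rw [Real.mul_rpow hξ0 (by positivity), ← Real.rpow_natCast x (m - 1),
            ← Real.rpow_mul hx.le, bet_mul hm]
        -- the intermediate time
        set τ' : ℝ := max τ s with hτ'
        have hsτ' : s ≤ τ' := le_max_right _ _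
        have hτ'σ : τ' ≤ σ := max_le hσ.1 h0.le
        have hτ'T : τ' < T := hτ'σ.trans_lt hσT
        set b0 : ℝ := max X0 ((ρ s) ^ gam m) with hb0
        -- phase 1
        have hph1 := rate_piece (N := fun τ => (A * (T' - τ)) ^ (-(tht m + 1)))
          (G := fun τ => C' / (tht m * A) * g τ) (s0 := s) (s1 := τ') (b0 := b0) hm hη far hσT hs.1
          hsτ' hτ'σ hρc hρpos hρd
          (fun x hx => (hGd x (hx.2.trans_lt hτ'T)).continuousAt.continuousWithinAt)
          (fun x hx => hGd x (hx.2.trans hτ'T))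
          (fun x hx => hN1 x ⟨hx.1.le, hx.2.trans hτ'T⟩)
          (by
            intro x hx y hy hxy
            have h1 := hg_mono x y hxy (hy.2.trans_lt hτ'T)
            have h2 : 0 ≤ C' / (tht m * A) := by positivity
            exact mul_le_mul_of_nonneg_left h1 h2)
          (by
            intro x hx r' hr' z'
            rw [hNsq x (hx.2.trans hτ'T)]
            have hxτ : x < τ := by
              rcases max_choice τ s with h1 | h1
              · rw [hτ', h1] at hx; exact hx.2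
              · rw [hτ', h1] at hx; exact absurd (hx.1.trans hx.2) (lt_irrefl _)
            exact hP x ⟨hs.1.trans hx.1.le, hxτ⟩ hx.1.le r' hr' z')
          (le_max_left _ _) (le_max_right _ _)
        -- phase 2
        set b1 : ℝ := b0 + (C' / (tht m * A) * g τ' - C' / (tht m * A) * g s) with hb1
        have hb01 : b0 ≤ b1 := by
          have h1 := hg_mono s τ' hsτ' hτ'T
          have h2 : 0 ≤ C' / (tht m * A) := by positivity
          have h3 := mul_le_mul_of_nonneg_left h1 h2
          linarith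
        have hph2 := rate_piece (N := fun _ => c1) (G := fun x => C' * (c1 * x)) (s0 := τ')
          (s1 := σ) (b0 := b1) hm hη far hσT (hs.1.trans hsτ') hτ'σ le_rfl hρc hρpos hρd
          (by fun_prop)
          (by
            intro x _
            have h2 := ((hasDerivAt_id x).const_mul c1).const_mul C'
            refine h2.congr_deriv ?_
            show C' * (c1 * 1) = C' * c1
            ring)
          (fun x _ => hc1C)
          (by
            intro x _ y _ hxy
            dsimp only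
            gcongr)
          (by
            intro x hx r' hr' z'
            have hx0 : 0 ≤ x := hs.1.trans (hsτ'.trans hx.1.le)
            exact ((hC x ⟨hx0, hx.2.le.trans hσ1⟩ r' hr' z').2).trans hc1sq)
          ((le_max_left _ _).trans hb01) hph1
        rw [hρt] at hph2
        -- conclusion
        have hb0le : b0 ≤ X0 + (ρ s) ^ gam m := by
          have : 0 ≤ (ρ s) ^ gam m := by positivity
          exact max_le (by linarith) (by linarith)
        have hξβ : 0 ≤ ξ ^ bet m := Real.rpow_nonneg hξ0 _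
        have hξν : ξ ^ bet m ≤ ν := Real.rpow_le_rpow hξ0 hξN hβ.le
        have hinit' : ξ ^ bet m * (ρ s) ^ gam m ≤ g s / 4 := by
          rw [← hpow _ hρs, ← hws]
          have h1 := hinit (ρ s) hρs (ζ s)
          have h2 := hg_pos s hs.2
          calc |w s (ρ s) (ζ s)| ^ bet m ≤ ((g s / 4) ^ (1 / bet m)) ^ bet m :=
                Real.rpow_le_rpow (abs_nonneg _) h1 hβ.le
            _ = g s / 4 := by
                rw [← Real.rpow_mul (by positivity), one_div_mul_cancel hβ.ne', Real.rpow_one]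
        have hgsσ : g s ≤ g σ := hg_mono s σ h0.le hσT
        have hgτσ : g τ' ≤ g σ := hg_mono τ' σ hτ'σ hσT
        have hgs0 := hg_pos s hs.2
        have hc0 : 0 ≤ C' / (tht m * A) := by positivity
        have hlast : ν * (C' * (c1 * (σ - τ'))) ≤ 1 := by
          have h1 : σ - τ' ≤ 1 / (ν * (C' * c1) + 1) := by
            have : τ ≤ τ' := le_max_left _ _
            linarith
          have h2 : 0 ≤ ν * (C' * c1) := by positivity
          calc ν * (C' * (c1 * (σ - τ'))) = (ν * (C' * c1)) * (σ - τ') := by ring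
            _ ≤ (ν * (C' * c1)) * (1 / (ν * (C' * c1) + 1)) := by gcongr
            _ ≤ 1 := by
                rw [mul_one_div, div_le_one (by positivity)]
                linarith
        have hsum : r ^ gam m ≤ X0 + (ρ s) ^ gam m + C' / (tht m * A) * g σ + C' * (c1 * (σ - τ')) := by
          have h1 : C' / (tht m * A) * g τ' ≤ C' / (tht m * A) * g σ :=
            mul_le_mul_of_nonneg_left hgτσ hc0
          have h2 : 0 ≤ C' / (tht m * A) * g s := mul_nonneg hc0 hgs0.le
          have h3 : C' * (c1 * σ) - C' * (c1 * τ') = C' * (c1 * (σ - τ')) := by ring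
          linarith
        have hστ' : 0 ≤ σ - τ' := by linarith
        have hkey : ξ ^ bet m * r ^ gam m ≤ g σ := by
          have h1 : ξ ^ bet m * r ^ gam m ≤ ξ ^ bet m * X0 + ξ ^ bet m * (ρ s) ^ gam m +
              ξ ^ bet m * (C' / (tht m * A) * g σ) + ξ ^ bet m * (C' * (c1 * (σ - τ'))) := by
            calc ξ ^ bet m * r ^ gam m ≤ ξ ^ bet m * (X0 + (ρ s) ^ gam m +
                  C' / (tht m * A) * g σ + C' * (c1 * (σ - τ'))) :=
                  mul_le_mul_of_nonneg_left hsum hξβ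
              _ = _ := by ring
          have h2 : ξ ^ bet m * X0 ≤ ν * X0 := by gcongr
          have h3 : ξ ^ bet m * (C' / (tht m * A) * g σ) ≤ g σ / 4 := by
            calc ξ ^ bet m * (C' / (tht m * A) * g σ) ≤ ν * (C' / (tht m * A) * g σ) := by gcongr
              _ = (ν * (C' / (tht m * A))) * g σ := by ring
              _ ≤ 1 / 4 * g σ := by gcongr
              _ = g σ / 4 := by ring
          have h4 : ξ ^ bet m * (C' * (c1 * (σ - τ'))) ≤ 1 := by
            refine le_trans ?_ hlast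
            have h5 : 0 ≤ C' * (c1 * (σ - τ')) := by positivity
            gcongr
          have h6 : 4 * (ν * X0 + 1) ≤ g σ := (le_max_left _ _).trans hglow
          linarith
        rw [← hpow _ hr, ← hwσ] at hkey
        calc |w σ r z| = (|w σ r z| ^ bet m) ^ (1 / bet m) := by
              rw [← Real.rpow_mul (abs_nonneg _), mul_one_div_cancel hβ.ne', Real.rpow_one]
          _ ≤ (g σ) ^ (1 / bet m) :=
              Real.rpow_le_rpow (Real.rpow_nonneg (abs_nonneg _) _) hkey (by positivity)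
  exact fun σ hσ r hr z => hboot σ ⟨hs.1.trans hσ.1, hσ.2⟩ hσ.1 r hr z

end Pool.Agent.Lib.MP_c167ed_anC
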