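import Pool.Agent.Lib.MP_c167ed_anC.TrajC
import Pool.Agent.Lib.MP_c167ed_an.Signed

/-!
# MP_c167ed_an, separating data: the reflection symmetry and the sign of the vorticity
-/

open MeasureTheory Set Filter Topology
open scoped ContDiff ENNReal NNReal

namespace Pool.Agent.Lib.MP_c167ed_anC

open Pool.Agent.Lib.MP_c167ed_an

variable {m : ℕ} {T : ℝ} {u : ℝ → V m → V m} {p : ℝ → V m → ℝ}

/-- `v` commutes with the reflection `x_d ↦ -x_d` -/
def ReflSym {m : ℕ} (v : V m → V m) : Prop := ∀ x, v (flip m x) = flip m (v x)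

theorem ReflSym.conj {v : V m → V m} (hv : ReflSym v) :
    (fun x => (flip m).symm (v (flip m x))) = v := by
  funext x
  rw [hv x, LinearIsometryEquiv.symm_apply_apply]

/-- the reflection symmetry is preserved -/
theorem refl_preserved (h : EulerSolution m T u p) (h0 : ReflSym (u 0)) :
    ∀ t ∈ Ico 0 T, ReflSym (u t) := by
  intro t ht x
  have h2 := unique h (h.rotate (flip m)) h0.conj.symm ht
  have h3 : u t x = (flip m).symm (u t (flip m x)) := congrFun h2 x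
  rw [h3, LinearIsometryEquiv.apply_symm_apply]

/-- the vorticity is odd -/
theorem om_odd (hm : 1 ≤ m) {v : V m → V m} (hv : ReflSym v) (r z : ℝ) :
    om v r z = - om v r (-z) := by
  have h1 := om_flip hm v r z
  rwa [hv.conj] at h1

theorem om_zero (hm : 1 ≤ m) {v : V m → V m} (hv : ReflSym v) (r : ℝ) : om v r 0 = 0 := by
  have h1 := om_odd hm hv r 0
  rw [neg_zero] at h1
  linarith

/-- the axial velocity vanishes on the plane -/
theorem last_zero {v : V m → V m} (hv : ReflSym v) {x : V m} (hx : ax x = 0) :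
    v x (Fin.last m) = 0 := by
  have h1 : flip m x = x := by
    ext i
    refine Fin.lastCases ?_ (fun j => ?_) i
    · rw [flip_last]
      have : x (Fin.last m) = 0 := hx
      rw [this, neg_zero]
    · rw [flip_castSucc]
  have h2 := hv x
  rw [h1] at h2
  have h3 := congrArg (fun y : V m => y (Fin.last m)) h2
  simp only [flip_last] at h3
  linarith

/-- `|u_d(x)| ≤ C |x_d|` -/
theorem last_le (h : EulerSolution m T u p) {s C : ℝ} (hs : s ∈ Ico 0 T)
    (hC : ∀ x, ‖fderiv ℝ (u s) x‖ ≤ C) (hv : ReflSym (u s)) (x : V m) :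
    |u s x (Fin.last m)| ≤ C * |ax x| := by
  set y : V m := x - EuclideanSpace.single (Fin.last m) (ax x) with hy
  have hy0 : ax y = 0 := by
    simp [hy, ax]
  have h1 := traj_lip h hs hC x y
  have h2 := last_zero hv hy0
  have h3 := traj_coord_le (u s x - u s y) (Fin.last m)
  rw [PiLp.sub_apply, h2, sub_zero] at h3
  have h4 : ‖x - y‖ = |ax x| := by
    have : x - y = EuclideanSpace.single (Fin.last m) (ax x) := by
      rw [hy]; abel
    rw [this]
    simp
  rw [h4] at h1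
  exact h3.trans h1

/-- `z ω ≥ 0` is preserved -/
theorem om_sign (hm : 2 ≤ m) (h : EulerSolution m T u p)
    (hax : ∀ t ∈ Ico 0 T, AxisymNoSwirl (u t)) (hrf : ∀ t ∈ Ico 0 T, ReflSym (u t))
    (hs : ∀ r, 0 < r → ∀ z, 0 < z → 0 ≤ om (u 0) r z)
    {t : ℝ} (ht : t ∈ Ico 0 T) {r : ℝ} (hr : 0 < r) {z : ℝ} (hz : 0 < z) :
    0 ≤ om (u t) r z := by
  rcases ht.1.eq_or_lt with h0 | h0
  · rw [← h0]; exact hs r hr z hz
  obtain ⟨ρ, ζ, hρc, hζc, hpos, -, hρt, hζt, hq, -⟩ := exists_traj_all hm h hax ⟨h0, ht.2⟩ hr (z := z)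
  have htt : t ∈ Icc 0 t := ⟨h0.le, le_rfl⟩
  have h00 : (0 : ℝ) ∈ Icc 0 t := ⟨le_rfl, h0.le⟩
  have hqt := hq t htt
  rw [hρt, hζt] at hqt
  have hfin : 0 ≤ om (u 0) (ρ 0) (ζ 0) / (ρ 0) ^ (m - 1) := by
    rcases lt_or_ge 0 (ζ 0) with h1 | h1
    · exact div_nonneg (hs _ (hpos 0 h00) _ h1) (pow_pos (hpos 0 h00) _).le
    · obtain ⟨s, hs1, hs2⟩ : (0 : ℝ) ∈ ζ '' Icc 0 t := by
        apply intermediate_value_Icc h0.le hζc
        exact ⟨h1, by rw [hζt]; exact hz.le⟩
      have h2 := hq s hs1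
      rw [hs2, om_zero (by omega) (hrf s ⟨hs1.1, hs1.2.trans_lt ht.2⟩), zero_div] at h2
      rw [← h2]
  rw [← hqt] at hfin
  have h2 := mul_nonneg hfin (pow_pos hr (m - 1)).le
  rwa [div_mul_cancel₀ _ (pow_pos hr _).ne'] at h2

/-- the sign for all `z`: `z ω ≥ 0` -/
theorem om_mul_nonneg (hm : 2 ≤ m) (h : EulerSolution m T u p)
    (hax : ∀ t ∈ Ico 0 T, AxisymNoSwirl (u t)) (hrf : ∀ t ∈ Ico 0 T, ReflSym (u t))
    (hs : ∀ r, 0 < r → ∀ z, 0 < z → 0 ≤ om (u 0) r z)
    {t : ℝ} (ht : t ∈ Ico 0 T) {r : ℝ} (hr : 0 < r) (z : ℝ) :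
    0 ≤ om (u t) r z * z := by
  rcases lt_trichotomy z 0 with hz | hz | hz
  · have h1 := om_sign hm h hax hrf hs ht hr (z := -z) (by linarith)
    rw [om_odd (by omega) (hrf t ht) r z]
    nlinarith
  · rw [hz, mul_zero]
  · exact mul_nonneg (om_sign hm h hax hrf hs ht hr hz) hz.le

end Pool.Agent.Lib.MP_c167ed_anC
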