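import Pool.Agent.Lib.MP_c167ed_anC.ReflC

/-!
# MP_c167ed_an, separating data: the smoothed sign of `x_d`
-/

open MeasureTheory Set Filter Topology
open scoped ContDiff ENNReal NNReal

namespace Pool.Agent.Lib.MP_c167ed_anC

open Pool.Agent.Lib.MP_c167ed_an

variable {m : ℕ}

/-- the moving scale `κ e^{2Lt}` -/
noncomputable def kap (κ L t : ℝ) : ℝ := κ * Real.exp (2 * L * t)

/-- the smoothed sign of `x_d` -/
noncomputable def sg {m : ℕ} (κ L : ℝ) (q : ℝ × V m) : ℝ :=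
  ax q.2 / √(ax q.2 ^ 2 + kap κ L q.1)

theorem kap_pos {κ : ℝ} (hκ : 0 < κ) (L t : ℝ) : 0 < kap κ L t := mul_pos hκ (Real.exp_pos _)

theorem sg_contDiff {κ : ℝ} (hκ : 0 < κ) (L : ℝ) : ContDiff ℝ 1 (sg (m := m) κ L) := by
  unfold sg
  have h1 : ContDiff ℝ 1 (fun q : ℝ × V m => ax q.2) :=
    (ax_contDiff.of_le (by exact_mod_cast le_top)).comp contDiff_snd
  have h2 : ContDiff ℝ 1 (fun q : ℝ × V m => ax q.2 ^ 2 + kap κ L q.1) := by
    refine (h1.pow 2).add ?_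
    unfold kap
    fun_prop
  have h3 : ∀ q : ℝ × V m, 0 < ax q.2 ^ 2 + kap κ L q.1 := fun q => by
    have := kap_pos hκ L q.1
    positivity
  exact h1.div (h2.sqrt fun q => (h3 q).ne') fun q => (Real.sqrt_pos.2 (h3 q)).ne'

theorem abs_sg_le {κ : ℝ} (hκ : 0 < κ) (L : ℝ) (q : ℝ × V m) : |sg κ L q| ≤ 1 := by
  unfold sg
  have h1 := kap_pos hκ L q.1
  have h2 : 0 < √(ax q.2 ^ 2 + kap κ L q.1) := by positivity
  rw [abs_div, abs_of_pos h2, div_le_one h2]
  apply Real.abs_le_sqrt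
  linarith

theorem mul_sg_nonneg {κ : ℝ} (hκ : 0 < κ) (L : ℝ) (q : ℝ × V m) : 0 ≤ ax q.2 * sg κ L q := by
  unfold sg
  have h1 := kap_pos hκ L q.1
  have h2 : 0 < √(ax q.2 ^ 2 + kap κ L q.1) := by positivity
  rw [← mul_div_assoc]
  exact div_nonneg (mul_self_nonneg _) h2.le

/-- derivative of the smoothed sign along a line -/
theorem sg_line {κ : ℝ} (hκ : 0 < κ) (L τ t : ℝ) (x w : V m) :
    HasDerivAt (fun s : ℝ => sg κ L (t + s * τ, x + s • w))
      (kap κ L t * (w (Fin.last m) - τ * (L * ax x)) /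
        ((ax x ^ 2 + kap κ L t) * √(ax x ^ 2 + kap κ L t))) 0 := by
  have hlx : HasDerivAt (fun s : ℝ => x + s • w) w 0 := by
    simpa using ((hasDerivAt_id (0 : ℝ)).smul_const w).const_add x
  have haxd : HasDerivAt (fun s : ℝ => ax (x + s • w)) (w (Fin.last m)) 0 := by
    have := (EuclideanSpace.proj (𝕜 := ℝ) (Fin.last m) : V m →L[ℝ] ℝ).hasFDerivAt.comp_hasDerivAt
      0 hlx
    exact this
  have ht : HasDerivAt (fun s : ℝ => t + s * τ) τ 0 := by
    simpa using ((hasDerivAt_id (0 : ℝ)).mul_const τ).const_add t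
  have hk : HasDerivAt (fun s : ℝ => kap κ L (t + s * τ)) (2 * (τ * L) * kap κ L t) 0 := by
    have h1 := ((ht.const_mul (2 * L)).exp).const_mul κ
    refine h1.congr_deriv ?_
    unfold kap
    simp only [zero_mul, add_zero]
    ring
  have h0 := kap_pos hκ L t
  have hpos : 0 < ax x ^ 2 + kap κ L t := by positivity
  have h2 : HasDerivAt (fun s : ℝ => ax (x + s • w) ^ 2 + kap κ L (t + s * τ))
      (2 * ax x * w (Fin.last m) + 2 * (τ * L) * kap κ L t) 0 := by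
    have h3 := (haxd.fun_pow 2).fun_add hk
    refine h3.congr_deriv ?_
    simp
  have h4 := h2.sqrt (by simp only [zero_smul, add_zero, zero_mul]; exact hpos.ne')
  have h5 := haxd.fun_div h4 (by simp only [zero_smul, add_zero, zero_mul]; exact (Real.sqrt_pos.2 hpos).ne')
  refine h5.congr_deriv ?_
  simp only [zero_smul, add_zero, zero_mul]
  set S := √(ax x ^ 2 + kap κ L t) with hS
  have hS0 : 0 < S := Real.sqrt_pos.2 hpos
  have hSS : ax x ^ 2 + kap κ L t = S ^ 2 := (Real.sq_sqrt hpos.le).symm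
  have hk2 : kap κ L t = S ^ 2 - ax x ^ 2 := by linarith
  rw [hSS, hk2]
  field_simp
  ring

/-- the sign function decreases in absolute value along the flow -/
theorem sg_deriv {κ : ℝ} (hκ : 0 < κ) {L t : ℝ} {x w : V m}
    (hw : |w (Fin.last m)| ≤ L * |ax x|) :
    ∃ D, ax x * D ≤ 0 ∧ HasDerivAt (fun s : ℝ => sg κ L (t + s, x + s • w)) D 0 := by
  refine ⟨_, ?_, (sg_line hκ L 1 t x w).congr_of_eventuallyEq
    (Eventually.of_forall fun s => by simp only [mul_one])⟩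
  have h0 := kap_pos hκ L t
  rw [one_mul, ← mul_div_assoc]
  refine div_nonpos_of_nonpos_of_nonneg ?_ (by positivity)
  have h1 : ax x * w (Fin.last m) ≤ L * ax x ^ 2 := by
    calc ax x * w (Fin.last m) ≤ |ax x * w (Fin.last m)| := le_abs_self _
      _ = |ax x| * |w (Fin.last m)| := abs_mul _ _
      _ ≤ |ax x| * (L * |ax x|) := by gcongr
      _ = L * ax x ^ 2 := by rw [← sq_abs (ax x)]; ring
  have h2 : ax x * (kap κ L t * (w (Fin.last m) - L * ax x)) =
      kap κ L t * (ax x * w (Fin.last m) - L * ax x ^ 2) := by ring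
  rw [h2]
  exact mul_nonpos_of_nonneg_of_nonpos h0.le (by linarith)

/-- spatial gradient of the smoothed sign -/
theorem sg_grad {κ : ℝ} (hκ : 0 < κ) (L t : ℝ) (x w : V m) :
    fderiv ℝ (fun y : V m => sg κ L (t, y)) x w =
      kap κ L t * w (Fin.last m) / ((ax x ^ 2 + kap κ L t) * √(ax x ^ 2 + kap κ L t)) := by
  have hl : HasDerivAt (fun s : ℝ => x + s • w) w 0 := by
    simpa using ((hasDerivAt_id (0 : ℝ)).smul_const w).const_add x
  have b1 : HasFDerivAt (fun y : V m => sg κ L (t, y))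
      (fderiv ℝ (fun y : V m => sg κ L (t, y)) x) x := by
    have : ContDiff ℝ 1 (fun y : V m => sg κ L (t, y)) :=
      (sg_contDiff hκ L).comp (contDiff_prodMk_right t)
    exact (this.differentiable (by norm_num) x).hasFDerivAt
  have b2 := b1.comp_hasDerivAt_of_eq (0 : ℝ) hl (by simp)
  have b3 : HasDerivAt (fun s : ℝ => sg κ L (t, x + s • w)) _ 0 :=
    (sg_line hκ L 0 t x w).congr_of_eventuallyEq
      (Eventually.of_forall fun s => by simp only [mul_zero, add_zero])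
  have b4 := b2.unique b3
  rw [b4]
  simp

/-- the contribution of the gradient of the smoothed sign to the flux -/
theorem sg_flux {κ : ℝ} (hκ : 0 < κ) {L : ℝ} (t : ℝ) {v : V m → V m} {x : V m}
    (hv : |v x (Fin.last m)| ≤ L * |ax x|) :
    -(fderiv ℝ (fun y : V m => sg κ L (t, y)) x (Jf v x)) ≤ L ^ 2 / 2 * √(kap κ L t) := by
  rw [sg_grad hκ]
  have h0 := kap_pos hκ L t
  have hpos : 0 < ax x ^ 2 + kap κ L t := by positivity
  set S := √(ax x ^ 2 + kap κ L t) with hS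
  have hS0 : 0 < S := Real.sqrt_pos.2 hpos
  have hSS : ax x ^ 2 + kap κ L t = S ^ 2 := (Real.sq_sqrt hpos.le).symm
  have hJ : (Jf v x) (Fin.last m) = ‖v x‖ ^ 2 / 2 - v x (Fin.last m) ^ 2 := by
    unfold Jf
    simp
    ring
  have h1 : v x (Fin.last m) ^ 2 ≤ ‖v x‖ ^ 2 := by
    have h2 := traj_coord_le (v x) (Fin.last m)
    rw [← sq_abs]
    exact pow_le_pow_left₀ (abs_nonneg _) h2 2
  have h2 : v x (Fin.last m) ^ 2 ≤ L ^ 2 * ax x ^ 2 := by
    rw [← sq_abs, ← sq_abs (ax x), ← mul_pow]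
    exact pow_le_pow_left₀ (abs_nonneg _) hv 2
  have h3 : -(Jf v x) (Fin.last m) ≤ L ^ 2 * ax x ^ 2 / 2 := by
    rw [hJ]; linarith
  have h4 : ax x ^ 2 ≤ S ^ 2 := by rw [← hSS]; linarith
  set k := √(kap κ L t) with hk
  have hk0 : 0 ≤ k := Real.sqrt_nonneg _
  have hkk : kap κ L t = k ^ 2 := (Real.sq_sqrt h0.le).symm
  have hkS : k ≤ S := Real.sqrt_le_sqrt (by nlinarith [sq_nonneg (ax x)])
  rw [hSS, hkk, ← neg_div, div_le_iff₀ (by positivity)]
  calc -(k ^ 2 * (Jf v x) (Fin.last m)) = k ^ 2 * (-(Jf v x) (Fin.last m)) := by ring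
    _ ≤ k ^ 2 * (L ^ 2 * ax x ^ 2 / 2) := by gcongr
    _ ≤ k ^ 2 * (L ^ 2 * S ^ 2 / 2) := by gcongr
    _ = L ^ 2 / 2 * k * (S ^ 2 * k) := by ring
    _ ≤ L ^ 2 / 2 * k * (S ^ 2 * S) := by gcongr

/-- the smoothed sign tends to the sign -/
theorem sg_tendsto {κ : ℕ → ℝ} (hκ : Tendsto κ atTop (𝓝 0)) (L : ℝ) {q : ℝ × V m}
    (hq : ax q.2 ≠ 0) :
    Tendsto (fun n => sg (κ n) L q) atTop (𝓝 (ax q.2 / |ax q.2|)) := by
  unfold sg kap
  have h1 : Tendsto (fun n => √(ax q.2 ^ 2 + κ n * Real.exp (2 * L * q.1))) atTop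
      (𝓝 (√(ax q.2 ^ 2 + 0 * Real.exp (2 * L * q.1)))) :=
    (Real.continuous_sqrt.tendsto _).comp ((hκ.mul_const _).const_add _)
  rw [zero_mul, add_zero, Real.sqrt_sq_eq_abs] at h1
  exact tendsto_const_nhds.div h1 (abs_ne_zero.2 hq)

end Pool.Agent.Lib.MP_c167ed_anC
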